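import Pool.Agent.Y667.RZ.Fin2
import Pool.Agent.TH841.SH.Wt
import Pool.Agent.W307.RT.Tors

/-!
# Project RZ: the Tate-Shafarevich groups
-/

set_option autoImplicit false

namespace Pool.Agent.Y667.SHA

open WeierstrassCurve Pool.Agent.TH841.SH

open scoped Classical

open Pool.Agent.W262.SH (QB Pt act IsCoc IsCob LocTriv shaCoc cob Sha)

open Pool.Agent.W307.SE Pool.Agent.W307.RT
open Pool.Agent.W402.FK (coef dist roots cub)

section

variable {W : WeierstrassCurve ℚ} {a b c : ℚ}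

/-- **The rank, the Tate-Shafarevich group and the Selmer homomorphisms.** -/
theorem card_le4 (h : IsR W a b c) (hab : a ≠ b) (hac : a ≠ c) (hbc : b ≠ c)
    (hfg : AddGroup.FG W.toAffine.Point) (F4 : Finset W.toAffine.Point) (h4 : 4 ≤ F4.card)
    (hF4 : ∀ g ∈ F4, g + g = 0) [Finite (selHom W)] :
    Finite {x : Sha W // x + x = 0} ∧
    2 ^ (Module.finrank ℤ W.toAffine.Point + 2) * Nat.card {x : Sha W // x + x = 0} ≤
      Nat.card (selHom W) := by
  have e1 : Nat.card {x : Sha W // x + x = 0} = Nat.card (toSha h).range :=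
    Nat.card_congr (Equiv.subtypeEquivRight (fun x => (toSha_range h hab hac hbc x).symm))
  have hfr : Finite (toSha h).range := Finite.of_surjective _ (toSha h).rangeRestrict_surjective
  have e2 : Nat.card (selHom W) = Nat.card (toSha h).range * Nat.card (toSha h).ker := by
    rw [AddSubgroup.card_eq_card_quotient_mul_card_addSubgroup (toSha h).ker]
    congr 1
    exact Nat.card_congr (QuotientAddGroup.quotientKerEquivRange (toSha h)).toEquiv
  refine ⟨Finite.of_equiv _ (Equiv.subtypeEquivRight (fun x => toSha_range h hab hac hbc x)), ?_⟩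
  rw [e1, e2, mul_comm]
  refine Nat.mul_le_mul_left _ ?_
  obtain ⟨j, hj, hjσ, hjf⟩ := exists_rat W
  have hinj : Function.Injective (algebraMap ℚ QB) := (algebraMap ℚ QB).injective
  have : Fintype (toSha h).ker := Fintype.ofFinite _
  let R : (toSha h).ker → W.toAffine.Point → Prop := fun f g =>
    ∃ Q : Pt W QB, Q + Q = j g ∧ ∀ σ, (f.1 : (QB ≃ₐ[ℚ] QB) → Pt W QB) σ =
      act W σ.toAlgHom Q - Q
  let T : Finset W.toAffine.Point :=
    Finset.univ.image (fun f : (toSha h).ker => if hd : ∃ g, R f g then hd.choose else 0)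
  have hT : T.card ≤ Nat.card (toSha h).ker := by
    rw [Nat.card_eq_fintype_card]
    exact Finset.card_image_le.trans_eq Finset.card_univ
  refine le_trans (Pool.Agent.Y155.RP.rkb2 _ hfg T (fun g => ?_) F4 h4 hF4) hT
  obtain ⟨Q, hQ⟩ := (h.base QB).div two_ne_zero (hinj.ne hab) (hinj.ne hac) (hinj.ne hbc) (j g)
  have hsel : (fun σ : QB ≃ₐ[ℚ] QB => act W σ.toAlgHom Q - Q) ∈ selHom W := by
    apply cob_sel h
    intro σ
    have e3 : act W σ.toAlgHom Q - Q + (act W σ.toAlgHom Q - Q) =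
      (act W σ.toAlgHom Q + act W σ.toAlgHom Q) - (Q + Q) := by abel
    rw [e3, ← map_add, ← hQ, hjσ, sub_self]
  have hker : (⟨_, hsel⟩ : selHom W) ∈ (toSha h).ker := by
    rw [toSha_ker]
    exact ⟨Q, fun σ => rfl⟩
  set f : (toSha h).ker := ⟨⟨_, hsel⟩, hker⟩ with hf
  have hex : ∃ g', R f g' := ⟨g, Q, hQ.symm, fun σ => rfl⟩
  obtain ⟨Q', hQ', hf'⟩ := hex.choose_spec
  refine ⟨hex.choose, ?_, ?_⟩
  · refine Finset.mem_image.2 ⟨f, Finset.mem_univ _, ?_⟩
    rw [dif_pos hex]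
  · have hfix : ∀ σ : QB ≃ₐ[ℚ] QB, act W σ.toAlgHom (Q - Q') = Q - Q' := by
      intro σ
      have e4 : act W σ.toAlgHom Q - Q = act W σ.toAlgHom Q' - Q' := hf' σ
      rw [map_sub]
      have e5 : act W σ.toAlgHom Q = act W σ.toAlgHom Q' - Q' + Q := by
        rw [← e4]
        abel
      rw [e5]
      abel
    obtain ⟨q, hq⟩ := hjf _ hfix
    refine ⟨q, hj ?_⟩
    rw [map_add, map_add, hq, ← hQ', hQ]
    abel

open Pool.Agent.H437R2.Man.MW (crv pt_fg)

/-- **Main theorem for one curve.** -/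
theorem main4 (W : WeierstrassCurve ℚ) (a b c : ℤ) (h : IsR W (a : ℚ) (b : ℚ) (c : ℚ))
    (hab : a ≠ b) (hac : a ≠ c) (hbc : b ≠ c) (hS : (SelG a b c).Finite)
    (F4 : Finset W.toAffine.Point) (h4 : 4 ≤ F4.card) (hF4 : ∀ g ∈ F4, g + g = 0) :
    Finite {x : Sha W // x + x = 0} ∧
    2 ^ (Module.finrank ℤ W.toAffine.Point + 2) * Nat.card {x : Sha W // x + x = 0} ≤
      (SelG a b c).ncard := by
  have qab : (a : ℚ) ≠ b := by exact_mod_cast hab
  have qac : (a : ℚ) ≠ c := by exact_mod_cast hac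
  have qbc : (b : ℚ) ≠ c := by exact_mod_cast hbc
  obtain ⟨Φ, hΦ, hΦS⟩ := sel_inj h hab hac hbc
  have hfin : Finite (SelG a b c) := hS
  have hfin' : Finite (selHom W) :=
    Finite.of_injective (fun f => (⟨Φ f, hΦS f⟩ : SelG a b c))
      (fun f g hfg => hΦ (congrArg Subtype.val hfg))
  have hcard : Nat.card (selHom W) ≤ (SelG a b c).ncard := by
    rw [← Nat.card_coe_set_eq]
    exact Nat.card_le_card_of_injective (fun f => (⟨Φ f, hΦS f⟩ : SelG a b c))
      (fun f g hfg => hΦ (congrArg Subtype.val hfg))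
  have hW : W = crv (-(a : ℚ)) (-(b : ℚ)) (-(c : ℚ)) := by
    apply WeierstrassCurve.ext
    · rw [h.h1]
      rfl
    · rw [h.h2]
      show _ = -(a : ℚ) + -(b : ℚ) + -(c : ℚ)
      ring
    · rw [h.h3]
      rfl
    · rw [h.h4]
      show _ = -(a : ℚ) * -(b : ℚ) + -(a : ℚ) * -(c : ℚ) + -(b : ℚ) * -(c : ℚ)
      ring
    · rw [h.h6]
      show _ = -(a : ℚ) * -(b : ℚ) * -(c : ℚ)
      ring
  have hfg : AddGroup.FG W.toAffine.Point := by
    rw [hW]
    exact pt_fg (fun h => qab (neg_injective h)) (fun h => qac (neg_injective h))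
      (fun h => qbc (neg_injective h))
  obtain ⟨h1, h2⟩ := card_le4 h qab qac qbc hfg F4 h4 hF4
  exact ⟨h1, h2.trans hcard⟩

end

lemma dbl2 : ∀ x : ZMod 2 × ZMod 2, x + x = 0 := by decide

/-- **The rank and the Tate-Shafarevich group of `y² = x³ + A x + B`.** -/
theorem sha_selR4 {A B e1 e2 e3 : ℤ} (hD : 4 * A ^ 3 + 27 * B ^ 2 ≠ 0)
    (h : ∀ x : ℤ, x ^ 3 + A * x + B = (x - e1) * (x - e2) * (x - e3))
    (f : ZMod 2 × ZMod 2 →+ (Sh A B).toAffine.Point) (hf : Function.Injective f)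
    (hS : (SelR A B).Finite) :
    Finite {x : Sha (Sh A B) // x + x = 0} ∧
    2 ^ (Module.finrank ℤ (Sh A B).toAffine.Point + 2) *
      Nat.card {x : Sha (Sh A B) // x + x = 0} ≤ (SelR A B).ncard := by
  obtain ⟨d12, d13, d23⟩ := dist A B e1 e2 e3 hD h
  obtain ⟨h1, h2⟩ := selG_le hD h hS
  obtain ⟨h3, h4⟩ := main4 (Sh A B) e1 e2 e3 (isR_Sh h) d12 d13 d23 h1 (Finset.univ.image f) (by
    rw [Finset.card_image_of_injective _ hf, Finset.card_univ]
    rfl) (by
    intro g hg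
    obtain ⟨x, -, rfl⟩ := Finset.mem_image.1 hg
    rw [← map_add]
    rw [dbl2 x, map_zero])
  exact ⟨h3, h4.trans h2⟩

/-- no elements of 2-power order -/
lemma no_tor {G : Type} [AddCommGroup G] (h : ∀ x : G, x + x = 0 → x = 0) (k : ℕ) :
    ∀ x : G, (2 ^ k : ℕ) • x = 0 → x = 0 := by
  induction k with
  | zero => intro x hx; simpa using hx
  | succ k ih =>
    intro x hx
    rw [pow_succ, mul_comm, mul_smul, two_nsmul] at hx
    exact ih x (h _ hx)

/-- **A curve with 2-Selmer group of order 4**: rank zero and no element of order two in `Ш`. -/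
theorem sha_zero4 {c : ℤ × ℤ} (hD : 4 * c.1 ^ 3 + 27 * c.2 ^ 2 ≠ 0) (hT : HasT 2 (Sh c.1 c.2))
    (hS : (SelR c.1 c.2).Finite) (hc : (SelR c.1 c.2).ncard ≤ 4) :
    D.rk (Sh c.1 c.2) = 0 ∧ ∀ (k : ℕ) (x : D.Sha (Sh c.1 c.2)), (2 ^ k : ℕ) • x = 0 → x = 0 := by
  obtain ⟨F, -, hF⟩ := Pool.Agent.W513.FK.parf
  obtain ⟨-, -, -, -, -, e1, e2, e3, he, -, -⟩ := hF c hD hT
  obtain ⟨f, hf⟩ := tors_iff.1 hT
  obtain ⟨h1, h2⟩ := sha_selR4 hD he f hf hS
  have h3 := h2.trans hc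
  have hpos : 0 < Nat.card {x : Sha (Sh c.1 c.2) // x + x = 0} := by
    have : Nonempty {x : Sha (Sh c.1 c.2) // x + x = 0} := ⟨⟨0, add_zero 0⟩⟩
    exact Nat.card_pos
  have h5 : 2 ^ (Module.finrank ℤ (Sh c.1 c.2).toAffine.Point + 2) ≤ 2 ^ 2 :=
    (Nat.le_mul_of_pos_right _ hpos).trans h3
  have h6 := (Nat.pow_le_pow_iff_right (by norm_num : 1 < 2)).1 h5
  have h7 : Module.finrank ℤ (Sh c.1 c.2).toAffine.Point = 0 := by omega
  refine ⟨h7, ?_⟩
  rw [h7] at h3
  have h8 : Nat.card {x : Sha (Sh c.1 c.2) // x + x = 0} ≤ 1 := by omega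
  have h9 : ∀ x : Sha (Sh c.1 c.2), x + x = 0 → x = 0 := by
    intro x hx
    have h10 : Subsingleton {x : Sha (Sh c.1 c.2) // x + x = 0} := by
      rw [← Finite.card_le_one_iff_subsingleton]
      exact h8
    have := h10.elim ⟨x, hx⟩ ⟨0, add_zero 0⟩
    exact congrArg Subtype.val this
  refine fun k => no_tor (fun x hx => ?_) k
  have h11 := h9 (D.eSha (Sh c.1 c.2) x) (by rw [← map_add, hx, map_zero])
  rwa [EmbeddingLike.map_eq_zero_iff] at h11

end Pool.Agent.Y667.SHA
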