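import Pool.Agent.Y667.RZ.Stm

/-!
# Project RZ (helper667): statements of the second part

The exact orders of the 2-Selmer groups: a positive proportion of the curves has a 2-Selmer group of
order 4 (rank zero), and a positive proportion has a 2-Selmer group of order 8.
-/

set_option autoImplicit false

namespace Pool.Agent.Y667.RZ

open Finset Filter Pool.Agent.W262.RK Pool.Agent.W307.RT Pool.Agent.W307.RS Pool.Agent.W307.SE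
  Pool.Agent.W307.FK Pool.Agent.Y667.RP

/-- The pairs `(a, b)` of size `X` for which the groups `V0`, `V17` have at most 8 elements. -/
def GoodV (X : ℕ) (t : ℕ × ℕ) : Prop :=
  X < 2 * t.1 ∧ t.1 ≤ X ∧ X < 8 * t.2 ∧ 4 * t.2 ≤ X ∧ t.1 % 3 = 1 ∧ t.2 % 3 = 2 ∧
    Nat.Coprime t.1 t.2 ∧ ∃ s : Fin 3 → ℕ, s 0 = t.1 ∧ s 1 = t.2 ∧ Squarefree (∏ j, s j) ∧
    Odd (∏ j, s j) ∧ (∀ p : ℕ, p.Prime → p ∣ ∏ j, s j → 17 < p) ∧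
    (s 0 : ℤ) - s 1 = 32 * s 2 ∧ s 0 % 8 = 1 ∧ s 1 % 8 = 1 ∧ s 0 % 17 = 1 ∧ s 1 % 17 = 15 ∧
    (∀ σ : ℤ, σ = -1 ∨ σ = 2 ∨ σ = -2 →
      ∃ p : ℕ, p.Prime ∧ p ∣ ∏ j, s j ∧ jacobiSym σ p = -1) ∧
    (V0 s (sgF (s 0) (s 1) (∏ j, s j))).Finite ∧
    (V0 s (sgF (s 0) (s 1) (∏ j, s j))).ncard ≤ 8 ∧
    (V17 s (sgF (s 0) (s 1) (∏ j, s j))).Finite ∧
    (V17 s (sgF (s 0) (s 1) (∏ j, s j))).ncard ≤ 8

open Classical in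
/-- **MAINV** (many pairs). -/
def St_MAINV : Prop := ∃ c : ℝ, 0 < c ∧ ∃ X0 : ℕ, ∀ X : ℕ, X0 ≤ X →
  c * (X : ℝ) ^ 2 ≤ (((Icc 1 X ×ˢ Icc 1 X).filter (GoodV X)).card : ℝ)

/-- **GOODS** (local solubility at the primes of good reduction). -/
def St_GOODS : Prop := ∀ (p : ℕ) [Fact p.Prime] (A B d1 d2 : ℤ), ¬ (p : ℤ) ∣ 2 * A * B * (A - B) →
  ¬ (p : ℤ) ∣ d1 → ¬ (p : ℤ) ∣ d2 → Loc ℚ_[p] A B d1 d2

/-- **SURJ** (the local conditions give the Selmer group). -/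
def St_SURJ : Prop := ∀ s : Fin 3 → ℕ, Squarefree (∏ j, s j) → Odd (∏ j, s j) →
  (∀ p : ℕ, p.Prime → p ∣ ∏ j, s j → 17 < p) → (s 0 : ℤ) - s 1 = 32 * s 2 → s 0 % 8 = 1 →
  s 1 % 8 = 1 → s 0 % 17 = 1 → s 1 % 17 = 15 →
    V0 s (sgF (s 0) (s 1) (∏ j, s j)) ⊆ Sel (s 0 : ℤ) (s 1 : ℤ) ∧
    V17 s (sgF (s 0) (s 1) (∏ j, s j)) ⊆ Sel (17 * (s 0 : ℤ)) (17 * (s 1 : ℤ))

/-- **LOW4** (the classes of the 2-torsion points). -/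
def St_LOW4 : Prop := ∀ a b : ℤ, Squarefree a → 1 < a → 0 < b → b < a → (Sel a b).Finite →
  4 ≤ (Sel a b).ncard

/-- **SELC2** (the two descriptions of the 2-Selmer group, equality of the orders). -/
def St_SELC2 : Prop := ∀ (A B e1 e2 e3 M N : ℤ) (q : ℚ), 4 * A ^ 3 + 27 * B ^ 2 ≠ 0 →
  (∀ x : ℤ, x ^ 3 + A * x + B = (x - e1) * (x - e2) * (x - e3)) → q ≠ 0 →
  ((e2 - e1 : ℤ) : ℚ) = M * q ^ 2 → ((e3 - e1 : ℤ) : ℚ) = N * q ^ 2 → (Sel M N).Finite →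
    (SelR A B).Finite ∧ (SelR A B).ncard = (Sel M N).ncard

/-- The pairs `(a, b)` of size `X` with 2-Selmer groups of orders 4 and 8 (in some order) for the
curve and its twist by 17. -/
def GoodW (X : ℕ) (t : ℕ × ℕ) : Prop :=
  X < 2 * t.1 ∧ t.1 ≤ X ∧ X < 8 * t.2 ∧ 4 * t.2 ≤ X ∧ t.1 % 3 = 1 ∧ t.2 % 3 = 2 ∧
    t.1 % 17 = 1 ∧ t.2 % 17 = 15 ∧ Nat.Coprime t.1 t.2 ∧
    (Sel (t.1 : ℤ) (t.2 : ℤ)).Finite ∧ (Sel (17 * (t.1 : ℤ)) (17 * (t.2 : ℤ))).Finite ∧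
    (((Sel (t.1 : ℤ) (t.2 : ℤ)).ncard = 4 ∧
        (Sel (17 * (t.1 : ℤ)) (17 * (t.2 : ℤ))).ncard = 8) ∨
      ((Sel (t.1 : ℤ) (t.2 : ℤ)).ncard = 8 ∧
        (Sel (17 * (t.1 : ℤ)) (17 * (t.2 : ℤ))).ncard = 4))

open Classical in
/-- **CVW** (from pairs to curves). -/
def St_CVW : Prop := (∃ c : ℝ, 0 < c ∧ ∃ X0 : ℕ, ∀ X : ℕ, X0 ≤ X →
    c * (X : ℝ) ^ 2 ≤ (((Icc 1 X ×ˢ Icc 1 X).filter (GoodW X)).card : ℝ)) →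
  ∃ c : ℝ, 0 < c ∧ ∃ H0 : ℕ, ∀ H : ℕ, H0 ≤ H →
    c * ((Cv 2 H).card : ℝ) ≤ (((Cv 2 H).filter (fun k : ℤ × ℤ => (SelR k.1 k.2).Finite ∧
      (SelR k.1 k.2).ncard = 4 ∧ Module.finrank ℤ (Sh k.1 k.2).toAffine.Point = 0)).card : ℝ) ∧
    c * ((Cv 2 H).card : ℝ) ≤ (((Cv 2 H).filter (fun k : ℤ × ℤ => (SelR k.1 k.2).Finite ∧
      (SelR k.1 k.2).ncard = 8 ∧ Module.finrank ℤ (Sh k.1 k.2).toAffine.Point ≤ 1)).card : ℝ)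

end Pool.Agent.Y667.RZ
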