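import Pool.Agent.Y667.RZ.Fin
import Pool.Agent.Y667.RZ.Stm2
import Pool.Agent.Y212.RZ.Selc2
import Pool.Agent.Y212.RZ.Low4
import Pool.Agent.Y535.RZ.SURJ
import Pool.Agent.Y105.RZ.Goods
import Pool.Agent.Y890.RZ.CVW

/-!
# Project RZ: exact orders of the 2-Selmer groups
-/

set_option autoImplicit false

namespace Pool.Agent.Y667.RZ

open Finset Filter Pool.Agent.W262.RK Pool.Agent.W307.RT Pool.Agent.W307.RS Pool.Agent.W307.SE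
  Pool.Agent.W307.FK Pool.Agent.Y667.RP

lemma par48 {k k' : ℕ} (h : Odd (k + k')) (h1 : 2 ^ k ≤ 8) (h2 : 2 ^ k' ≤ 8) (h3 : 4 ≤ 2 ^ k)
    (h4 : 4 ≤ 2 ^ k') : (2 ^ k = 4 ∧ 2 ^ k' = 8) ∨ (2 ^ k = 8 ∧ 2 ^ k' = 4) := by
  have a1 : k ≤ 3 := (Nat.pow_le_pow_iff_right (by norm_num : 1 < 2)).1 (by omega : 2 ^ k ≤ 2 ^ 3)
  have a2 : k' ≤ 3 := (Nat.pow_le_pow_iff_right (by norm_num : 1 < 2)).1 (by omega : 2 ^ k' ≤ 2 ^ 3)
  have b1 : 2 ≤ k := (Nat.pow_le_pow_iff_right (by norm_num : 1 < 2)).1 (by omega : 2 ^ 2 ≤ 2 ^ k)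
  have b2 : 2 ≤ k' := (Nat.pow_le_pow_iff_right (by norm_num : 1 < 2)).1 (by omega : 2 ^ 2 ≤ 2 ^ k')
  interval_cases k <;> interval_cases k' <;> revert h <;> decide

lemma goodW_of {X : ℕ} {t : ℕ × ℕ} (h : GoodV X t) : GoodW X t := by
  obtain ⟨h1, h2, h3, h4, h5, h6, h7, s, e0, e1, hsq, hodd, hp, heq, m0, m1, m2, m3, hσ, f0, c0,
    f1, c1⟩ := h
  have h17 : ¬ 17 ∣ ∏ j, s j := by
    intro h
    have := hp 17 (by norm_num) h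
    omega
  obtain ⟨k, k', hk, hk', hodd'⟩ := Pool.Agent.Y655.RZ.PAR Pool.Agent.Y212.RZ.LAG s hsq hodd h17 heq
    m0 m1 m2 m3 hσ
  obtain ⟨g0, g1⟩ := Pool.Agent.Y535.RZ.SEL17 s hsq hodd h17 heq m0 m1 m2 m3
  obtain ⟨r0, r1⟩ := Pool.Agent.Y535.RZ.SURJ Pool.Agent.Y105.RZ.GOODS s hsq hodd hp heq m0 m1 m2 m3
  have E0 := Set.Subset.antisymm g0 r0
  have E1 := Set.Subset.antisymm g1 r1
  have hs0 : s 0 ∣ ∏ j, s j := Finset.dvd_prod_of_mem s (mem_univ 0)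
  have hs1 : s 1 ∣ ∏ j, s j := Finset.dvd_prod_of_mem s (mem_univ 1)
  have hs2 : s 2 ∣ ∏ j, s j := Finset.dvd_prod_of_mem s (mem_univ 2)
  have q0 : Squarefree (s 0) := hsq.squarefree_of_dvd hs0
  have n0 : s 0 ≠ 0 := q0.ne_zero
  have n1 : s 1 ≠ 0 := (hsq.squarefree_of_dvd hs1).ne_zero
  have n2 : s 2 ≠ 0 := (hsq.squarefree_of_dvd hs2).ne_zero
  have p0 : (0 : ℤ) < s 0 := by exact_mod_cast Nat.pos_of_ne_zero n0
  have p1 : (0 : ℤ) < s 1 := by exact_mod_cast Nat.pos_of_ne_zero n1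
  have p2 : (0 : ℤ) < s 2 := by exact_mod_cast Nat.pos_of_ne_zero n2
  have hlt : (s 1 : ℤ) < s 0 := by linarith
  have q17 : Squarefree (17 * s 0) := by
    rw [Nat.squarefree_mul_iff]
    refine ⟨?_, (by norm_num : Nat.Prime 17).squarefree, q0⟩
    rw [Nat.coprime_comm]
    exact ((Nat.Prime.coprime_iff_not_dvd (by norm_num : Nat.Prime 17)).2
      fun h => h17 (h.trans hs0)).symm
  rw [← E0] at f0 c0 hk
  rw [← E1] at f1 c1 hk'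
  have l0 : 4 ≤ (Sel (s 0 : ℤ) (s 1 : ℤ)).ncard :=
    Pool.Agent.Y212.RZ.LOW4 _ _ (Int.squarefree_natCast.2 q0) (by linarith) p1 hlt f0
  have l1 : 4 ≤ (Sel (17 * (s 0 : ℤ)) (17 * (s 1 : ℤ))).ncard :=
    Pool.Agent.Y212.RZ.LOW4 _ _ (by
      have := Int.squarefree_natCast.2 q17
      push_cast at this
      exact this) (by linarith) (by linarith) (by linarith) f1
  rw [hk] at c0 l0
  rw [hk'] at c1 l1
  refine ⟨h1, h2, h3, h4, h5, h6, by rw [← e0]; exact m2, by rw [← e1]; exact m3, h7, ?_⟩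
  rw [← e0, ← e1]
  refine ⟨f0, f1, ?_⟩
  rw [hk, hk']
  exact par48 hodd' c0 c1 l0 l1

open Classical in
theorem mainw : ∃ c : ℝ, 0 < c ∧ ∃ X0 : ℕ, ∀ X : ℕ, X0 ≤ X →
    c * (X : ℝ) ^ 2 ≤ (((Icc 1 X ×ˢ Icc 1 X).filter (GoodW X)).card : ℝ) := by
  obtain ⟨c, hc, X0, h⟩ := mainv
  refine ⟨c, hc, X0, fun X hX => (h X hX).trans (Nat.cast_le.2 (card_le_card fun t ht => ?_))⟩
  rw [mem_filter] at ht ⊢
  exact ⟨ht.1, goodW_of ht.2⟩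

open Classical in
theorem curvesW : ∃ c : ℝ, 0 < c ∧ ∃ H0 : ℕ, ∀ H : ℕ, H0 ≤ H →
    c * ((Cv 2 H).card : ℝ) ≤ (((Cv 2 H).filter (fun k : ℤ × ℤ => (SelR k.1 k.2).Finite ∧
      (SelR k.1 k.2).ncard = 4 ∧ Module.finrank ℤ (Sh k.1 k.2).toAffine.Point = 0)).card : ℝ) ∧
    c * ((Cv 2 H).card : ℝ) ≤ (((Cv 2 H).filter (fun k : ℤ × ℤ => (SelR k.1 k.2).Finite ∧
      (SelR k.1 k.2).ncard = 8 ∧ Module.finrank ℤ (Sh k.1 k.2).toAffine.Point ≤ 1)).card : ℝ) :=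
  Pool.Agent.Y890.RZ.CVW Pool.Agent.Y212.RZ.SELC2 mainw

end Pool.Agent.Y667.RZ
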