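import Pool.Agent.Y667.RZ.Defs

/-!
# Project RZ (helper667): statements of the parts

Every `St_X` is the statement of one part.
-/

set_option autoImplicit false

namespace Pool.Agent.Y667.RZ

open Finset Filter Pool.Agent.W262.RK Pool.Agent.W307.RT Pool.Agent.W307.RS Pool.Agent.W307.SE
  Pool.Agent.W307.FK Pool.Agent.Y667.RP

/-- **LAG** (three Lagrangians of a quadratic space over the field with two elements). -/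
def St_LAG : Prop := ∀ (V : Type) [AddCommGroup V] [Module (ZMod 2) V] [Finite V]
  (B : V →ₗ[ZMod 2] V →ₗ[ZMod 2] ZMod 2) (q : V → ZMod 2) (n : ℕ)
  (A W W' : Submodule (ZMod 2) V), Module.finrank (ZMod 2) V = 2 * n →
  (∀ x, (∀ y, B x y = 0) → x = 0) → (∀ x y, q (x + y) = q x + q y + B x y) →
  (∀ x ∈ A, q x = 0) → (∀ x ∈ W, q x = 0) → (∀ x ∈ W', q x = 0) →
  Module.finrank (ZMod 2) A = n → Module.finrank (ZMod 2) W = n →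
  Module.finrank (ZMod 2) W' = n →
    Even (Module.finrank (ZMod 2) (A ⊓ W : Submodule (ZMod 2) V) +
      Module.finrank (ZMod 2) (A ⊓ W' : Submodule (ZMod 2) V) +
      Module.finrank (ZMod 2) (W ⊓ W' : Submodule (ZMod 2) V) + n)

open Classical in
/-- **SV3** (linear sieve up to `N ^ (1/3)`). -/
def St_SV3 : Prop := ∃ (A0 : ℝ) (C0 : ℕ), 0 < A0 ∧ ∀ z : ℕ, C0 ≤ z → ∀ η : ℝ, 0 < η →
  ∃ ε₁ : ℝ, 0 < ε₁ ∧ ε₁ ≤ 1 / 8 ∧ ∃ N0 : ℕ, ∀ N : ℕ, N0 ≤ N →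
  ∀ (ι : Type) (Ω : Finset ι) (v : ι → ℕ) (g : ℕ → ℝ) (A : ℝ) (S : ℕ), 0 ≤ A → S ≠ 0 → S ≤ N →
  (∀ p : ℕ, p.Prime → z < p → 0 ≤ g p ∧ g p ≤ 1 / ((p : ℝ) - 1) ∧
    (¬ p ∣ S → g p = 1 / ((p : ℝ) - 1))) →
  (ε₁ * (A * ∏ p ∈ (Ioc z N).filter (fun p : ℕ => p.Prime ∧ (p : ℝ) < (N : ℝ) ^ ε₁), (1 - g p)) *
      (A0 * (50 / 49 * Real.log (97 / 50)) - η) -
      Real.log N * ∑ q ∈ Lev z ((N : ℝ) ^ (99 / 100 : ℝ)), Rq Ω v g A q ≤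
    ((Ω.filter (fun i => RR3 N z (v i))).card : ℝ)) ∧
  ∀ τ : ℝ, 9 / 20 ≤ τ → τ ≤ 3 / 4 →
    ((Ω.filter (fun i => RR3 N z (v i))).card : ℝ) ≤
      ε₁ * (A * ∏ p ∈ (Ioc z N).filter (fun p : ℕ => p.Prime ∧ (p : ℝ) < (N : ℝ) ^ ε₁), (1 - g p)) *
        (A0 / τ + η) +
      Real.log N * ∑ q ∈ Lev z ((N : ℝ) ^ (τ + 1 / 100)), Rq Ω v g A q

/-- **DSC** (discrepancy of the primes of `Pt X` on average over the moduli). -/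
def St_DSC : Prop := ∀ C U : ℕ, ∃ X0 : ℕ, ∀ X : ℕ, X0 ≤ X →
  ∑ f ∈ Icc 1 ⌊(X : ℝ) ^ (1 / 100 : ℝ)⌋₊, (f.divisors.card : ℝ) ^ C / f * Dsc X (136 * f) ≤
    1 / Real.log X ^ U

/-- **V17N** (finite, and bounded by the local count). -/
def St_V17N : Prop := ∀ (s : Fin 3 → ℕ) (E : Finset ℕ), Squarefree (∏ j, s j) →
  Odd (∏ j, s j) → ¬ 17 ∣ ∏ j, s j → (V17 s E).Finite ∧
    (V17 s E).ncard ≤ 16 * NL (∏ j, s j) (LF s (tw (∏ j, s j) E))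

/-- **KILL17** (a prime with a nontrivial symbol kills at least half of the classes). -/
def St_KILL17 : Prop := ∀ (s : Fin 3 → ℕ) (E E' : Finset ℕ) (w : ℤ × ℤ) (p : ℕ) (j : Fin 3),
  Squarefree (∏ j, s j) → Odd (∏ j, s j) → ¬ 17 ∣ ∏ j, s j → w ∈ V17 s E → p.Prime → p ≠ 2 →
  p ≠ 17 → ¬ p ∣ ∏ j, s j → E' ∩ (∏ j, s j).primeFactors = E ∩ (∏ j, s j).primeFactors →
  phi j (sgn p w.1) (sgn p w.2) = true →
    V17 (Function.update s j (s j * p)) E' ⊆ V17 s E ∧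
    2 * (V17 (Function.update s j (s j * p)) E').ncard ≤ (V17 s E).ncard

/-- **NG** (for at least one of the two signs there is no new class; a new prime at most doubles
the number of the classes). -/
def St_NG : Prop := ∀ (s : Fin 3 → ℕ) (E : Finset ℕ) (p : ℕ) (j : Fin 3),
  Squarefree (∏ j, s j) → Odd (∏ j, s j) → ¬ 17 ∣ ∏ j, s j → E ⊆ (∏ j, s j).primeFactors →
  p.Prime → p ≠ 2 → p ≠ 17 → ¬ p ∣ ∏ j, s j →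
    (V0 (Function.update s j (s j * p)) E ⊆ V0 s E ∨
      V0 (Function.update s j (s j * p)) (insert p E) ⊆ V0 s E) ∧
    (V17 (Function.update s j (s j * p)) E ⊆ V17 s E ∨
      V17 (Function.update s j (s j * p)) (insert p E) ⊆ V17 s E) ∧
    ∀ E' : Finset ℕ, E' = E ∨ E' = insert p E →
      (V0 (Function.update s j (s j * p)) E').ncard ≤ 2 * (V0 s E).ncard ∧
      (V17 (Function.update s j (s j * p)) E').ncard ≤ 2 * (V17 s E).ncard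

open Classical in
/-- **GD2** (a positive proportion of the data has no class for the curve and its twist by 17). -/
def St_GD2 : Prop := ∃ z0 : ℕ, ∀ z : ℕ, z0 ≤ z → ∀ κ : ℝ, 0 < κ → ∃ c : ℝ, 0 < c ∧
  ∃ X0 : ℕ, ∀ X : ℕ, X0 ≤ X →
    c * Real.log X ^ 3 ≤ ∑ s ∈ Trip z ((X : ℝ) ^ κ), mu s *
      (((∏ j, s j).primeFactors.powerset.filter
        (fun E => V0 s E = {(1, 1)} ∧ V17 s E = {(1, 1)})).card : ℝ)

/-- **PAR** (parity). -/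
def St_PAR : Prop := ∀ s : Fin 3 → ℕ, Squarefree (∏ j, s j) → Odd (∏ j, s j) →
  ¬ 17 ∣ ∏ j, s j → (s 0 : ℤ) - s 1 = 32 * s 2 → s 0 % 8 = 1 → s 1 % 8 = 1 → s 0 % 17 = 1 →
  s 1 % 17 = 15 →
  (∀ σ : ℤ, σ = -1 ∨ σ = 2 ∨ σ = -2 → ∃ p : ℕ, p.Prime ∧ p ∣ ∏ j, s j ∧ jacobiSym σ p = -1) →
    ∃ k k' : ℕ, (V0 s (sgF (s 0) (s 1) (∏ j, s j))).ncard = 2 ^ k ∧
      (V17 s (sgF (s 0) (s 1) (∏ j, s j))).ncard = 2 ^ k' ∧ Odd (k + k')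

/-- **SEL17** (the 2-Selmer groups of the curve and of its twist by 17). -/
def St_SEL17 : Prop := ∀ s : Fin 3 → ℕ, Squarefree (∏ j, s j) → Odd (∏ j, s j) →
  ¬ 17 ∣ ∏ j, s j → (s 0 : ℤ) - s 1 = 32 * s 2 → s 0 % 8 = 1 → s 1 % 8 = 1 → s 0 % 17 = 1 →
  s 1 % 17 = 15 →
    Sel (s 0 : ℤ) (s 1 : ℤ) ⊆ V0 s (sgF (s 0) (s 1) (∏ j, s j)) ∧
    Sel (17 * (s 0 : ℤ)) (17 * (s 1 : ℤ)) ⊆ V17 s (sgF (s 0) (s 1) (∏ j, s j))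

/-- **TYPE** (the primes with two bad signs lie in at most half of the classes). -/
def St_TYPE : Prop := ∀ (s : Fin 3 → ℕ) (E : Finset ℕ), Squarefree (∏ j, s j) →
  Odd (∏ j, s j) → ¬ 17 ∣ ∏ j, s j → E ⊆ (∏ j, s j).primeFactors → V0 s E = {(1, 1)} →
  V17 s E = {(1, 1)} → ∀ q1 q2 q3 : ℕ, q1.Prime → q2.Prime → q3.Prime →
  ¬ q1 ∣ 34 * ∏ j, s j → ¬ q2 ∣ 34 * ∏ j, s j → ¬ q3 ∣ 34 * ∏ j, s j →
  q3 ≡ q1 * q2 [MOD 136 * ∏ j, s j] → ¬ (Ty s E q1 ∧ Ty s E q2 ∧ Ty s E q3)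

open Classical in
/-- **HALF** (the primes with two bad signs have density at most one half). -/
def St_HALF : Prop := ∀ (X : ℕ) (s : Fin 3 → ℕ) (E : Finset ℕ), Squarefree (∏ j, s j) →
  Odd (∏ j, s j) → ¬ 17 ∣ ∏ j, s j → E ⊆ (∏ j, s j).primeFactors → V0 s E = {(1, 1)} →
  V17 s E = {(1, 1)} → (136 * (∏ j, s j : ℕ) : ℝ) < (X : ℝ) ^ (1 / 3 : ℝ) →
    ∑ q ∈ (Pt X).filter (fun q => Ty s E q), 1 / ((q : ℝ) - 1) ≤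
      (∑ q ∈ Pt X, 1 / ((q : ℝ) - 1)) / 2 + Dsc X (136 * ∏ j, s j)

open Classical in
/-- **MAINZ** (many good pairs). -/
def St_MAINZ : Prop := ∃ c : ℝ, 0 < c ∧ ∃ X0 : ℕ, ∀ X : ℕ, X0 ≤ X →
  c * (X : ℝ) ^ 2 ≤ (((Icc 1 X ×ˢ Icc 1 X).filter (GoodZ X)).card : ℝ)

open Classical in
/-- **CVZ** (from pairs to curves). -/
def St_CVZ : Prop := (∃ c : ℝ, 0 < c ∧ ∃ X0 : ℕ, ∀ X : ℕ, X0 ≤ X →
    c * (X : ℝ) ^ 2 ≤ (((Icc 1 X ×ˢ Icc 1 X).filter (GoodZ X)).card : ℝ)) →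
  ∃ c : ℝ, 0 < c ∧ ∃ H0 : ℕ, ∀ H : ℕ, H0 ≤ H →
    c * ((Cv 2 H).card : ℝ) ≤ (((Cv 2 H).filter (fun k : ℤ × ℤ => (SelR k.1 k.2).Finite ∧
      (SelR k.1 k.2).ncard ≤ 4 ∧ Module.finrank ℤ (Sh k.1 k.2).toAffine.Point = 0)).card : ℝ)

end Pool.Agent.Y667.RZ
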