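import Pool.Agent.Y667.RZ.N6

/-!
# Project RZ, the main argument, part 7: summation over the data, preparations
-/

set_option autoImplicit false

namespace Pool.Agent.Y667.RZ

open Finset Filter Pool.Agent.W262.RK Pool.Agent.W307.RT Pool.Agent.W307.RS Pool.Agent.W307.SE
  Pool.Agent.W307.FK Pool.Agent.Y667.RP

open Classical in
/-- the good signs -/
noncomputable def GZ (s : Fin 3 → ℕ) : Finset (Finset ℕ) :=
  (∏ j, s j).primeFactors.powerset.filter (fun E => Gd s E)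

/-- uniqueness of the representation -/
theorem uniq {z Q0 a0 b0 X : ℕ} {s s' : Fin 3 → ℕ} {E E' : Finset ℕ} {t t' : ℕ × ℕ} (hz : 2 ≤ z)
    (hB : Big z X) (hM : ModZ z Q0 a0 b0) (hD : Dat z s) (hD' : Dat z s') (hS : Sml X s)
    (hS' : Sml X s') (ht : t ∈ AA X Q0 a0 b0 s E) (ht' : t' ∈ AA X Q0 a0 b0 s' E')
    (hr : Rg X (vv s t)) (hr' : Rg X (vv s' t')) (h1 : s 0 * t.1 = s' 0 * t'.1)
    (h2 : s 1 * t.2 = s' 1 * t'.2) : s = s' ∧ E = E' ∧ t = t' := by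
  obtain ⟨-, -, b1⟩ := AA_big hB hS ht
  obtain ⟨-, -, b2⟩ := AA_big hB hS' ht'
  have m1 := ht
  have m2 := ht'
  unfold AA at m1 m2
  rw [mem_filter] at m1 m2
  obtain ⟨-, p1, p2, -, -, -, -, -, -, -, g1⟩ := m1
  obtain ⟨-, p3, p4, -, -, -, -, -, -, -, g2⟩ := m2
  have key : ∀ (a b m n : ℕ), m.Prime → n.Prime → b ≠ 0 → b < m → a * m = b * n →
      m = n ∧ a = b := by
    intro a b m n hm hn hb0 hbm h
    have h3 : m ∣ b * n := ⟨a, by rw [← h, mul_comm]⟩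
    have h4 : m = n := by
      rcases (hm.dvd_mul).1 h3 with h5 | h5
      · have := Nat.le_of_dvd (Nat.pos_of_ne_zero hb0) h5
        omega
      · exact (Nat.prime_dvd_prime_iff_eq hm hn).1 h5
    refine ⟨h4, ?_⟩
    rw [← h4] at h
    exact Nat.eq_of_mul_eq_mul_right hm.pos h
  obtain ⟨e1, e0⟩ := key (s 0) (s' 0) t.1 t'.1 p1 p3 (hD'.ne 0)
    ((b1 (s' 0) ((hS' 0).trans hB.half)).1) h1
  obtain ⟨e2, e3⟩ := key (s 1) (s' 1) t.2 t'.2 p2 p4 (hD'.ne 1)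
    ((b1 (s' 1) ((hS' 1).trans hB.half)).2) h2
  have htt : t = t' := Prod.ext e1 e2
  have q1 := AA_eq hz hD hM ht
  have q2 := AA_eq hz hD' hM ht'
  have q3 : s 2 * vv s t = s' 2 * vv s' t' := by
    have : 32 * (s 2 * vv s t) = 32 * (s' 2 * vv s' t') := by
      rw [← q1, ← q2, h1, h2]
    omega
  have hcop : ∀ (x l : ℕ), x ≠ 0 → (x : ℝ) ≤ (X : ℝ) ^ (1 / 2000 : ℝ) → Rg X l → x.Coprime l := by
    intro x l hx0 hx hl
    apply Nat.coprime_of_dvd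
    intro p hp h3 h4
    have h5 := hl p hp h4
    have h6 := Nat.le_of_dvd (Nat.pos_of_ne_zero hx0) h3
    have h7 : (p : ℝ) ≤ x := by exact_mod_cast h6
    have := hB.k4
    linarith
  have d1 : s 2 ∣ s' 2 := by
    have h3 : s 2 ∣ s' 2 * vv s' t' := ⟨vv s t, q3.symm⟩
    exact (hcop (s 2) _ (hD.ne 2) (hS 2) hr').dvd_of_dvd_mul_right h3
  have d2 : s' 2 ∣ s 2 := by
    have h3 : s' 2 ∣ s 2 * vv s t := ⟨vv s' t', q3⟩
    exact (hcop (s' 2) _ (hD'.ne 2) (hS' 2) hr).dvd_of_dvd_mul_right h3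
  have e4 : s 2 = s' 2 := Nat.dvd_antisymm d1 d2
  have hss : s = s' := by
    funext j
    fin_cases j
    · exact e0
    · exact e3
    · exact e4
  refine ⟨hss, ?_, htt⟩
  rw [← g1, ← g2, h1, h2, hss]

theorem card_bound {z Q0 a0 b0 X : ℕ} (hz : 2 ≤ z) (hB : Big z X) (hM : ModZ z Q0 a0 b0)
    (T : Finset (ℕ × ℕ)) (F : (Fin 3 → ℕ) → Finset ℕ → Finset (ℕ × ℕ))
    (TT : Finset (Fin 3 → ℕ)) (hTT : TT ⊆ Trip z ((X : ℝ) ^ (1 / 2000 : ℝ)))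
    (hF : ∀ s ∈ TT, ∀ E ∈ GZ s, ∀ t ∈ F s E,
      t ∈ AA X Q0 a0 b0 s E ∧ Rg X (vv s t) ∧ (s 0 * t.1, s 1 * t.2) ∈ T) :
    ∑ s ∈ TT, ∑ E ∈ GZ s, ((F s E).card : ℝ) ≤ (T.card : ℝ) := by
  classical
  have h1 : ∑ s ∈ TT, ∑ E ∈ GZ s, ((F s E).card : ℝ) =
      (((TT.sigma GZ).sigma
        (fun i => F i.1 i.2)).card : ℝ) := by
    rw [card_sigma, sum_sigma]
    push_cast
    rfl
  rw [h1]
  have h2 : ((TT.sigma GZ).sigma
        (fun i => F i.1 i.2)).card ≤ T.card := by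
    apply card_le_card_of_injOn (fun x => (x.1.1 0 * x.2.1, x.1.1 1 * x.2.2))
    · rintro ⟨⟨s, E⟩, t⟩ hx
      rw [mem_coe, mem_sigma, mem_sigma] at hx
      exact (hF s hx.1.1 E hx.1.2 t hx.2).2.2
    · rintro ⟨⟨s, E⟩, t⟩ hx ⟨⟨s', E'⟩, t'⟩ hx' h
      rw [mem_coe, mem_sigma, mem_sigma] at hx hx'
      obtain ⟨a1, a2, -⟩ := hF s hx.1.1 E hx.1.2 t hx.2
      obtain ⟨b1, b2, -⟩ := hF s' hx'.1.1 E' hx'.1.2 t' hx'.2
      obtain ⟨d1, d2⟩ := Trip_dat (hTT hx.1.1)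
      obtain ⟨d3, d4⟩ := Trip_dat (hTT hx'.1.1)
      simp only [Prod.mk.injEq] at h
      obtain ⟨e1, e2, e3⟩ := uniq hz hB hM d1 d3 d2 d4 a1 b1 a2 b2 h.1 h.2
      subst e1 e2 e3
      rfl
  exact_mod_cast h2


open Classical in
lemma GZ_card (s : Fin 3 → ℕ) : (GZ s).card ≤ 2 ^ (∏ j, s j).primeFactors.card := by
  rw [← card_powerset]
  exact card_filter_le _ _

open Classical in
lemma GZ_eq (s : Fin 3 → ℕ) : (∏ j, s j).primeFactors.powerset.filter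
    (fun E => V0 s E = {(1, 1)} ∧ V17 s E = {(1, 1)}) = GZ s := by
  ext E
  unfold GZ
  rw [mem_filter, mem_filter]
  exact Iff.rfl

lemma Dsc_nonneg (X M : ℕ) : 0 ≤ Dsc X M := sum_nonneg fun _ _ => abs_nonneg _

/-- the data with a large discrepancy are rare -/
theorem dsc_rare (hDSC : St_DSC) (z : ℕ) : ∃ X0 : ℕ, ∀ X : ℕ, X0 ≤ X →
    ∑ s ∈ Trip z ((X : ℝ) ^ (1 / 2000 : ℝ)), (∏ j, 1 / (s j : ℝ)) * Dsc X (136 * ∏ j, s j) ≤ 1 := by
  classical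
  obtain ⟨X0, h⟩ := hDSC 2 0
  refine ⟨max X0 1, fun X hX => ?_⟩
  have h1 := h X ((le_max_left _ _).trans hX)
  have hX1 : 1 ≤ X := (le_max_right _ _).trans hX
  have hXr : (0 : ℝ) < X := by exact_mod_cast hX1
  have h1X : (1 : ℝ) ≤ X := by exact_mod_cast hX1
  rw [pow_zero, div_one] at h1
  refine le_trans ?_ h1
  obtain ⟨J, hJ⟩ : ∃ J : Finset ℕ, J = Icc 1 ⌊(X : ℝ) ^ (1 / 100 : ℝ)⌋₊ := ⟨_, rfl⟩
  rw [← hJ]
  have hmap : ∀ s ∈ Trip z ((X : ℝ) ^ (1 / 2000 : ℝ)), ∏ j, s j ∈ J := by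
    intro s hs
    obtain ⟨hD, hS⟩ := Trip_dat hs
    rw [hJ, mem_Icc]
    refine ⟨Nat.pos_of_ne_zero hD.sqf.ne_zero, Nat.le_floor ?_⟩
    rw [Fin.prod_univ_three]
    push_cast
    have h0 := hS 0
    have h1 := hS 1
    have h2 := hS 2
    have hκ : 0 < (X : ℝ) ^ (1 / 2000 : ℝ) := by positivity
    calc (s 0 : ℝ) * s 1 * s 2 ≤ (X : ℝ) ^ (1 / 2000 : ℝ) * (X : ℝ) ^ (1 / 2000 : ℝ) *
          (X : ℝ) ^ (1 / 2000 : ℝ) := by gcongr
      _ = (X : ℝ) ^ (1 / 2000 + 1 / 2000 + 1 / 2000 : ℝ) := by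
          rw [← Real.rpow_add hXr, ← Real.rpow_add hXr]
      _ ≤ _ := Real.rpow_le_rpow_of_exponent_le h1X (by norm_num)
  rw [← sum_fiberwise_of_maps_to hmap]
  apply sum_le_sum
  intro f hf
  have hf1 : 1 ≤ f := by
    rw [hJ, mem_Icc] at hf
    exact hf.1
  have e1 : ∀ s ∈ (Trip z ((X : ℝ) ^ (1 / 2000 : ℝ))).filter (fun s => ∏ j, s j = f),
      (∏ j, 1 / (s j : ℝ)) * Dsc X (136 * ∏ j, s j) = 1 / (f : ℝ) * Dsc X (136 * f) := by
    intro s hs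
    rw [mem_filter] at hs
    have h2 : ∏ j, 1 / (s j : ℝ) = 1 / (f : ℝ) := by
      rw [← hs.2]
      push_cast
      rw [Finset.prod_div_distrib, prod_const_one]
    rw [h2, hs.2]
  rw [sum_congr rfl e1, sum_const, nsmul_eq_mul]
  have hcard : ((Trip z ((X : ℝ) ^ (1 / 2000 : ℝ))).filter (fun s => ∏ j, s j = f)).card ≤
      f.divisors.card ^ 2 := by
    rw [sq, ← card_product]
    apply card_le_card_of_injOn (fun s : Fin 3 → ℕ => (s 0, s 1))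
    · intro s hs
      rw [mem_coe, mem_filter] at hs
      rw [mem_coe, mem_product, Nat.mem_divisors, Nat.mem_divisors, ← hs.2]
      have hne : ∏ j, s j ≠ 0 := by rw [hs.2]; omega
      exact ⟨⟨Dat.dvd 0, hne⟩, ⟨Dat.dvd 1, hne⟩⟩
    · intro s hs s' hs' h
      rw [mem_coe, mem_filter] at hs hs'
      simp only [Prod.mk.injEq] at h
      have h3 := hs.2.trans hs'.2.symm
      rw [Fin.prod_univ_three, Fin.prod_univ_three, h.1, h.2] at h3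
      have h4 : 0 < s' 0 * s' 1 := by
        apply Nat.pos_of_ne_zero
        intro h0
        have := hs'.2
        rw [Fin.prod_univ_three, h0, zero_mul] at this
        omega
      have h5 := Nat.eq_of_mul_eq_mul_left h4 h3
      rw [← vec3 s, ← vec3 s', h.1, h.2, h5]
  have hcard' : (((Trip z ((X : ℝ) ^ (1 / 2000 : ℝ))).filter (fun s => ∏ j, s j = f)).card : ℝ) ≤
      (f.divisors.card : ℝ) ^ 2 := by exact_mod_cast hcard
  have h3 : 0 ≤ 1 / (f : ℝ) * Dsc X (136 * f) := mul_nonneg (by positivity) (Dsc_nonneg _ _)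
  calc _ ≤ (f.divisors.card : ℝ) ^ 2 * (1 / (f : ℝ) * Dsc X (136 * f)) :=
        mul_le_mul_of_nonneg_right hcard' h3
    _ = _ := by ring

end Pool.Agent.Y667.RZ
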