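import Pool.Agent.Y667.RP.Kill

/-!
# Project RZ (helper667), problems MP_6073f3_nt and MP_157626_nt: definitions

A positive proportion of the elliptic curves with full rational 2-torsion has rank zero. The
2-Selmer groups of `E : y² = x (x - a) (x - b)` and of its twist by 17 are both controlled, and their
dimensions have different parities.
-/

set_option autoImplicit false

namespace Pool.Agent.Y667.RZ

open Finset Pool.Agent.W262.RK Pool.Agent.W307.RT Pool.Agent.W307.RS Pool.Agent.W307.SE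
  Pool.Agent.W307.FK Pool.Agent.Y667.RP

/-- the classes supported on `2` and the primes of `M` with the local conditions `L p` at the primes
of `M` (and the conditions `d.1 > 0`, `d.1` a square at `2`). `V0 s E = VG (∏ j, s j) (LF s E)` by
`rfl`. -/
def VG (M : ℕ) (L : ℕ → Bool → Bool → Bool → Bool → Prop) : Set (ℤ × ℤ) :=
  {d | Squarefree d.1 ∧ Squarefree d.2 ∧ 0 < d.1 ∧ d.1 % 8 = 1 ∧
    (∀ q : ℕ, q.Prime → (q : ℤ) ∣ d.1 → q ∣ M) ∧
    (∀ q : ℕ, q.Prime → (q : ℤ) ∣ d.2 → q ∣ 2 * M) ∧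
    ∀ p ∈ M.primeFactors, L p (dv p d.1) (dv p d.2) (sgn p d.1) (sgn p d.2)}

/-- the primes with negative sign of the twist by 17 -/
def tw (m : ℕ) (E : Finset ℕ) : Finset ℕ :=
  m.primeFactors.filter (fun p => ¬ (p ∈ E ↔ jacobiSym 17 p = -1))

/-- the local conditions of the twist by 17, `a ≡ 1`, `b ≡ 15` modulo 17 -/
def L17 (s : Fin 3 → ℕ) (E : Finset ℕ) (p : ℕ) (v w h g : Bool) : Prop :=
  if p = 17 then h = false ∧ g = v else LF s (tw (∏ j, s j) E) p v w h g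

/-- the classes of the twist by 17 -/
def V17 (s : Fin 3 → ℕ) (E : Finset ℕ) : Set (ℤ × ℤ) := VG (17 * ∏ j, s j) (L17 s E)

/-- no prime `p > z`, `p < N ^ (1/3)`, divides `n` -/
def RR3 (N z n : ℕ) : Prop := ∀ p : ℕ, p.Prime → z < p → (p : ℝ) < (N : ℝ) ^ (1 / 3 : ℝ) → ¬ p ∣ n

/-- the primes in `[X ^ (1/3), X ^ (1/2)]` -/
noncomputable def Pt (X : ℕ) : Finset ℕ := (Icc 1 X).filter (fun q : ℕ => q.Prime ∧
  (X : ℝ) ^ (1 / 3 : ℝ) ≤ q ∧ (q : ℝ) ≤ (X : ℝ) ^ (1 / 2 : ℝ))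

/-- the discrepancy of the primes of `Pt X` modulo `M`, with the weights `1 / (q - 1)` -/
noncomputable def Dsc (X M : ℕ) : ℝ :=
  ∑ a ∈ (range M).filter (fun a => a.Coprime M),
    |∑ q ∈ (Pt X).filter (fun q => q % M = a), 1 / ((q : ℝ) - 1) -
      (∑ q ∈ Pt X, 1 / ((q : ℝ) - 1)) / (M.totient : ℝ)|

/-- both signs at the new prime `q` of the third class are bad -/
def Ty (s : Fin 3 → ℕ) (E : Finset ℕ) (q : ℕ) : Prop :=
  (V0 (Function.update s 2 (s 2 * q)) E ≠ {(1, 1)} ∨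
    V17 (Function.update s 2 (s 2 * q)) E ≠ {(1, 1)}) ∧
  (V0 (Function.update s 2 (s 2 * q)) (insert q E) ≠ {(1, 1)} ∨
    V17 (Function.update s 2 (s 2 * q)) (insert q E) ≠ {(1, 1)})

/-- The good pairs `(a, b)` of size `X`. -/
def GoodZ (X : ℕ) (t : ℕ × ℕ) : Prop :=
  X < 2 * t.1 ∧ t.1 ≤ X ∧ X < 8 * t.2 ∧ 4 * t.2 ≤ X ∧ t.1 % 3 = 1 ∧ t.2 % 3 = 2 ∧
    t.1 % 17 = 1 ∧ t.2 % 17 = 15 ∧ Nat.Coprime t.1 t.2 ∧
    (((Sel (t.1 : ℤ) (t.2 : ℤ)).Finite ∧ (Sel (t.1 : ℤ) (t.2 : ℤ)).ncard ≤ 4) ∨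
      ((Sel (17 * (t.1 : ℤ)) (17 * (t.2 : ℤ))).Finite ∧
        (Sel (17 * (t.1 : ℤ)) (17 * (t.2 : ℤ))).ncard ≤ 4))

end Pool.Agent.Y667.RZ
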