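import Pool.Agent.Y667.RZ.MainV
import Pool.Agent.Y246.RZ.SV3
import Pool.Agent.Y153.RP.CNT
import Pool.Agent.Y515.RP.EE
import Pool.Agent.Y515.RP.BC
import Pool.Agent.Y515.RP.ERR
import Pool.Agent.Y535.RP.MS1
import Pool.Agent.Y202.RZ.GD2
import Pool.Agent.Y448.RZ.Loc
import Pool.Agent.Y448.RZ.Half
import Pool.Agent.Y823.RZ.DSC
import Pool.Agent.Y655.RZ.Par
import Pool.Agent.Y212.RZ.LAG
import Pool.Agent.Y535.RZ.SEL17
import Pool.Agent.Y285.RZ.CVZ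

/-!
# Project RZ: a positive proportion of the curves has rank zero
-/

set_option autoImplicit false

namespace Pool.Agent.Y667.RZ

open Finset Filter Pool.Agent.W262.RK Pool.Agent.W307.RT Pool.Agent.W307.RS Pool.Agent.W307.SE
  Pool.Agent.W307.FK Pool.Agent.Y667.RP

theorem mainv : St_MAINV :=
  MAINV Pool.Agent.Y246.RZ.SV3 Pool.Agent.Y153.RP.CNT
    (Pool.Agent.Y515.RP.ERR Pool.Agent.Y515.RP.EE)
    (Pool.Agent.Y202.RZ.GD2 Pool.Agent.Y535.RP.MS1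
      (Pool.Agent.Y515.RP.BC Pool.Agent.Y515.RP.EE) KILL V0N Pool.Agent.Y448.RZ.KILL17
      Pool.Agent.Y448.RZ.V17N Pool.Agent.Y448.RZ.NG)
    Pool.Agent.Y448.RZ.NG Pool.Agent.Y448.RZ.V17N
    (Pool.Agent.Y448.RZ.HALF Pool.Agent.Y448.RZ.TYPE)
    (Pool.Agent.Y823.RZ.DSC Pool.Agent.Y515.RP.EE)

lemma par8 {k k' : ℕ} (h : Odd (k + k')) (h1 : 2 ^ k ≤ 8) (h2 : 2 ^ k' ≤ 8) : k ≤ 2 ∨ k' ≤ 2 := by
  have a1 : k ≤ 3 := (Nat.pow_le_pow_iff_right (by norm_num : 1 < 2)).1 (by omega : 2 ^ k ≤ 2 ^ 3)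
  have a2 : k' ≤ 3 := (Nat.pow_le_pow_iff_right (by norm_num : 1 < 2)).1 (by omega : 2 ^ k' ≤ 2 ^ 3)
  by_contra hcon
  push Not at hcon
  have h3 : k = 3 := by omega
  have h4 : k' = 3 := by omega
  rw [h3, h4] at h
  exact absurd h (by decide)

lemma goodZ_of {X : ℕ} {t : ℕ × ℕ} (h : GoodV X t) : GoodZ X t := by
  obtain ⟨h1, h2, h3, h4, h5, h6, h7, s, e0, e1, hsq, hodd, hp, heq, m0, m1, m2, m3, hσ, f0, c0,
    f1, c1⟩ := h
  have h17 : ¬ 17 ∣ ∏ j, s j := by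
    intro h
    have := hp 17 (by norm_num) h
    omega
  obtain ⟨k, k', hk, hk', hodd'⟩ := Pool.Agent.Y655.RZ.PAR Pool.Agent.Y212.RZ.LAG s hsq hodd h17 heq
    m0 m1 m2 m3 hσ
  obtain ⟨g0, g1⟩ := Pool.Agent.Y535.RZ.SEL17 s hsq hodd h17 heq m0 m1 m2 m3
  rw [hk] at c0
  rw [hk'] at c1
  refine ⟨h1, h2, h3, h4, h5, h6, by rw [← e0]; exact m2, by rw [← e1]; exact m3, h7, ?_⟩
  rw [← e0, ← e1]
  rcases par8 hodd' c0 c1 with h | h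
  · left
    refine ⟨f0.subset g0, (Set.ncard_le_ncard g0 f0).trans ?_⟩
    rw [hk]
    exact (Nat.pow_le_pow_right (by norm_num) h).trans (by norm_num)
  · right
    refine ⟨f1.subset g1, (Set.ncard_le_ncard g1 f1).trans ?_⟩
    rw [hk']
    exact (Nat.pow_le_pow_right (by norm_num) h).trans (by norm_num)

open Classical in
theorem mainz : St_MAINZ := by
  obtain ⟨c, hc, X0, h⟩ := mainv
  refine ⟨c, hc, X0, fun X hX => (h X hX).trans (Nat.cast_le.2 (card_le_card fun t ht => ?_))⟩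
  rw [mem_filter] at ht ⊢
  exact ⟨ht.1, goodZ_of ht.2⟩

open Classical in
theorem curvesZ : ∃ c : ℝ, 0 < c ∧ ∃ H0 : ℕ, ∀ H : ℕ, H0 ≤ H →
    c * ((Cv 2 H).card : ℝ) ≤ (((Cv 2 H).filter (fun k : ℤ × ℤ => (SelR k.1 k.2).Finite ∧
      (SelR k.1 k.2).ncard ≤ 4 ∧ Module.finrank ℤ (Sh k.1 k.2).toAffine.Point = 0)).card : ℝ) :=
  Pool.Agent.Y285.RZ.CVZ mainz

end Pool.Agent.Y667.RZ
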