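import Pool.Agent.Y667.RZ.N3

/-!
# Project RZ, the main argument, part 4: the good pairs
-/

set_option autoImplicit false

namespace Pool.Agent.Y667.RZ

open Finset Pool.Agent.W262.RK Pool.Agent.W307.RT Pool.Agent.W307.RS Pool.Agent.W307.SE
  Pool.Agent.W307.FK Pool.Agent.Y667.RP

/-- no class for the curve and for its twist -/
def Gd (s : Fin 3 → ℕ) (E : Finset ℕ) : Prop := V0 s E = {(1, 1)} ∧ V17 s E = {(1, 1)}

/-- no prime factor `< X ^ (1/3)` -/
def Rg3 (X l : ℕ) : Prop := ∀ p : ℕ, p.Prime → p ∣ l → (X : ℝ) ^ (1 / 3 : ℝ) ≤ p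

lemma third {X : ℕ} (hX : 1 ≤ X) : (X : ℝ) ^ (1 / 4 : ℝ) ≤ (X : ℝ) ^ (1 / 3 : ℝ) :=
  Real.rpow_le_rpow_of_exponent_le (by exact_mod_cast hX) (by norm_num)

lemma Rg3.rg {X l : ℕ} (hX : 1 ≤ X) (h : Rg3 X l) : Rg X l :=
  fun p hp hl => (third hX).trans (h p hp hl)

/-- one of the two groups is nontrivial for both signs -/
lemma sigma_of {s : Fin 3 → ℕ} {E : Finset ℕ} (hodd : Odd (∏ j, s j)) (hV : V0 s E = {(1, 1)})
    {σ : ℤ} (hσ : σ = -1 ∨ σ = 2 ∨ σ = -2) :
    ∃ p : ℕ, p.Prime ∧ p ∣ ∏ j, s j ∧ jacobiSym σ p = -1 := by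
  by_contra hcon
  push Not at hcon
  have hsq : Squarefree σ := by
    rcases hσ with h | h | h
    · rw [h]; exact (IsUnit.neg isUnit_one).squarefree
    · rw [h]; exact Int.prime_two.squarefree
    · rw [h]; exact Int.prime_two.neg.squarefree
  have h2 : ∀ q : ℕ, q.Prime → (q : ℤ) ∣ σ → q = 2 := by
    intro q hq h
    have h3 : (q : ℤ) ∣ 2 := by
      rcases hσ with h' | h' | h'
      · rw [h'] at h
        exact h.trans ⟨-2, by norm_num⟩
      · rw [h'] at h; exact h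
      · rw [h'] at h; exact (Int.dvd_neg.1 h)
    have h4 : q ∣ 2 := by exact_mod_cast h3
    exact (Nat.prime_dvd_prime_iff_eq hq Nat.prime_two).1 h4
  have hmem : ((1, σ) : ℤ × ℤ) ∈ V0 s E := by
    refine ⟨squarefree_one, hsq, by norm_num, by norm_num, ?_, ?_, ?_⟩
    · intro q hq h
      have h' : (q : ℤ) ∣ 1 := h
      have h'' : q ∣ 1 := by exact_mod_cast h'
      exact absurd (Nat.dvd_one.1 h'') hq.one_lt.ne'
    · intro q hq h
      rw [h2 q hq h]
      exact dvd_mul_right _ _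
    · intro p hp
      have hpp := Nat.prime_of_mem_primeFactors hp
      have hp2 : p ≠ 2 := by
        rintro rfl
        exact (Nat.not_even_iff_odd.2 hodd) (even_iff_two_dvd.2 (Nat.dvd_of_mem_primeFactors hp))
      have hpσ : ¬ (p : ℤ) ∣ σ := fun h => hp2 (h2 p hpp h)
      have hp1 : ¬ (p : ℤ) ∣ 1 := by
        intro h
        exact hpp.one_lt.ne' (Nat.dvd_one.1 (by exact_mod_cast h))
      have hgcd : ∀ d : ℤ, ¬ (p : ℤ) ∣ d → Int.gcd d p = 1 := by
        intro d hd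
        rw [Int.gcd_comm]
        have h3 := (Nat.Prime.coprime_iff_not_dvd hpp).2 (fun h => hd (Int.natCast_dvd.2 h))
        exact h3
      have e1 : dv p 1 = false := by
        unfold dv
        exact decide_eq_false hp1
      have e2 : dv p σ = false := by
        unfold dv
        exact decide_eq_false hpσ
      have e3 : sgn p 1 = false := by
        unfold sgn sg0
        rw [hgcd 1 hp1, Nat.cast_one, Int.ediv_one, jacobiSym.one_left]
        decide
      have e4 : sgn p σ = false := by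
        unfold sgn sg0
        rw [hgcd σ hpσ, Nat.cast_one, Int.ediv_one]
        exact decide_eq_false (hcon p hpp (Nat.dvd_of_mem_primeFactors hp))
      show LF s E p (dv p 1) (dv p σ) (sgn p 1) (sgn p σ)
      rw [e1, e2, e3, e4]
      intro j _
      unfold LR
      split_ifs <;> simp
  rw [hV, Set.mem_singleton_iff, Prod.mk.injEq] at hmem
  have := hmem.2
  omega

lemma sgF_sub (a b : ℤ) (m : ℕ) : sgF a b m ⊆ m.primeFactors := filter_subset _ _

/-- three more primes -/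
lemma three (hNG : St_NG) {z : ℕ} {s : Fin 3 → ℕ} (hz : 17 ≤ z) (hD : Dat z s) {m n l : ℕ}
    (a b : ℤ) (hm : m.Prime) (hn : n.Prime) (hl : l.Prime) (hmn : m ≠ n) (hml : m ≠ l) (hnl : n ≠ l)
    (hms : ¬ m ∣ ∏ j, s j) (hns : ¬ n ∣ ∏ j, s j) (hls : ¬ l ∣ ∏ j, s j) (hmz : z < m)
    (hnz : z < n) (hlz : z < l) (hG : Gd s (sgF a b (∏ j, s j))) :
    ∃ s' : Fin 3 → ℕ, s' 0 = s 0 * m ∧ s' 1 = s 1 * n ∧ s' 2 = s 2 * l ∧
      ∏ j, s' j = (∏ j, s j) * m * n * l ∧ Dat z s' ∧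
      (V0 s' (sgF a b (∏ j, s' j))).ncard ≤ 8 ∧ (V17 s' (sgF a b (∏ j, s' j))).ncard ≤ 8 := by
  have key : ∀ (s : Fin 3 → ℕ) (j : Fin 3) (p : ℕ), Dat z s → p.Prime → z < p → ¬ p ∣ ∏ j, s j →
      Dat z (Function.update s j (s j * p)) ∧
      (V0 (Function.update s j (s j * p))
        (sgF a b (∏ i, Function.update s j (s j * p) i))).ncard ≤
          2 * (V0 s (sgF a b (∏ j, s j))).ncard ∧
      (V17 (Function.update s j (s j * p))
        (sgF a b (∏ i, Function.update s j (s j * p) i))).ncard ≤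
          2 * (V17 s (sgF a b (∏ j, s j))).ncard := by
    intro s j p hD hp hzp hps
    have h17 : ¬ 17 ∣ ∏ j, s j := by
      intro h
      have := hD.gt 17 (by norm_num) h
      omega
    have h1 := (hNG s (sgF a b (∏ j, s j)) p j hD.sqf (hD.odd (by omega)) h17 (sgF_sub _ _ _) hp
      (by omega) (by omega) hps).2.2
    refine ⟨⟨?_, ?_⟩, ?_⟩
    · rw [upd_prod, Nat.squarefree_mul_iff]
      exact ⟨((Nat.Prime.coprime_iff_not_dvd hp).2 hps).symm, hD.sqf, hp.squarefree⟩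
    · intro q hq h
      rw [upd_prod] at h
      rcases (hq.dvd_mul).1 h with h | h
      · exact hD.gt q hq h
      · rw [(Nat.prime_dvd_prime_iff_eq hq hp).1 h]
        exact hzp
    · rw [upd_prod]
      exact h1 _ (sgF_up a b _ p hD.sqf.ne_zero hp)
  obtain ⟨d1, v1, w1⟩ := key s 0 m hD hm hmz hms
  obtain ⟨s1, hs1⟩ : ∃ s1, s1 = Function.update s 0 (s 0 * m) := ⟨_, rfl⟩
  rw [← hs1] at d1 v1 w1
  have p1 : ∏ j, s1 j = (∏ j, s j) * m := by rw [hs1]; exact upd_prod s 0 m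
  have hn1 : ¬ n ∣ ∏ j, s1 j := by
    rw [p1]
    intro h
    rcases (hn.dvd_mul).1 h with h | h
    · exact hns h
    · exact hmn ((Nat.prime_dvd_prime_iff_eq hn hm).1 h).symm
  obtain ⟨d2, v2, w2⟩ := key s1 1 n d1 hn hnz hn1
  obtain ⟨s2, hs2⟩ : ∃ s2, s2 = Function.update s1 1 (s1 1 * n) := ⟨_, rfl⟩
  rw [← hs2] at d2 v2 w2
  have p2 : ∏ j, s2 j = (∏ j, s j) * m * n := by rw [hs2, upd_prod s1 1 n, p1]
  have hl2 : ¬ l ∣ ∏ j, s2 j := by
    rw [p2]
    intro h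
    rcases (hl.dvd_mul).1 h with h | h
    · rcases (hl.dvd_mul).1 h with h | h
      · exact hls h
      · exact hml ((Nat.prime_dvd_prime_iff_eq hl hm).1 h).symm
    · exact hnl ((Nat.prime_dvd_prime_iff_eq hl hn).1 h).symm
  obtain ⟨d3, v3, w3⟩ := key s2 2 l d2 hl hlz hl2
  obtain ⟨s3, hs3⟩ : ∃ s3, s3 = Function.update s2 2 (s2 2 * l) := ⟨_, rfl⟩
  rw [← hs3] at d3 v3 w3
  have p3 : ∏ j, s3 j = (∏ j, s j) * m * n * l := by rw [hs3, upd_prod s2 2 l, p2]
  rw [hG.1, Set.ncard_singleton] at v1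
  rw [hG.2, Set.ncard_singleton] at w1
  refine ⟨s3, ?_, ?_, ?_, p3, d3, by omega, by omega⟩
  · rw [hs3, Function.update_of_ne (by decide), hs2, Function.update_of_ne (by decide), hs1,
      Function.update_self]
  · rw [hs3, Function.update_of_ne (by decide), hs2, Function.update_self, hs1,
      Function.update_of_ne (by decide)]
  · rw [hs3, Function.update_self, hs2, Function.update_of_ne (by decide), hs1,
      Function.update_of_ne (by decide)]

/-- the conditions for a good pair -/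
lemma goodV_of (hNG : St_NG) (hVN : St_V17N) {z Q0 a0 b0 X : ℕ} {s : Fin 3 → ℕ} {E : Finset ℕ}
    {t : ℕ × ℕ} (hM : ModZ z Q0 a0 b0) (hD : Dat z s) (ht : t ∈ AA X Q0 a0 b0 s E)
    (hl : (vv s t).Prime) (hls : ¬ vv s t ∣ ∏ j, s j) (hne : t.1 ≠ t.2)
    (h1 : ¬ t.1 ∣ ∏ j, s j) (h2 : ¬ t.2 ∣ ∏ j, s j) (h3 : z < t.1) (h4 : z < t.2) (hG : Gd s E) :
    GoodV X (s 0 * t.1, s 1 * t.2) := by
  have hz17 := hM.z17
  have hz2 : 2 ≤ z := by omega
  have heq := AA_eq hz2 hD hM ht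
  have hlt := AA_lt ht
  have hmod := AA_mod64 hM ht
  have hlz : z < vv s t := by
    by_contra hcon
    push Not at hcon
    exact AA_small hz2 hD hM ht hl hcon dvd_rfl
  have hmem := ht
  unfold AA at hmem
  rw [mem_filter] at hmem
  obtain ⟨-, hm, hn, k1, k2, k3, k4, k5, k6, -, k8⟩ := hmem
  have he' : s 0 * t.1 = s 1 * t.2 + 32 * (s 2 * vv s t) := by omega
  have hml : t.1 ≠ vv s t := by
    intro h
    have h5 : t.1 ∣ s 1 * t.2 := by
      have h6 : t.1 ∣ s 0 * t.1 := dvd_mul_left _ _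
      rw [he'] at h6
      refine (Nat.dvd_add_left (dvd_mul_of_dvd_right ?_ _)).1 h6
      rw [← h]
      exact dvd_mul_left _ _
    rcases (hm.dvd_mul).1 h5 with h6 | h6
    · exact h1 (h6.trans (Dat.dvd 1))
    · exact hne ((Nat.prime_dvd_prime_iff_eq hm hn).1 h6)
  have hnl : t.2 ≠ vv s t := by
    intro h
    have h5 : t.2 ∣ s 0 * t.1 := by
      rw [he', ← h]
      exact dvd_add (dvd_mul_left _ _) (dvd_mul_of_dvd_right (dvd_mul_left _ _) _)
    rcases (hn.dvd_mul).1 h5 with h6 | h6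
    · exact h2 (h6.trans (Dat.dvd 0))
    · exact hne ((Nat.prime_dvd_prime_iff_eq hn hm).1 h6).symm
  have hG' : Gd s (sgF ((s 0 * t.1 : ℕ) : ℤ) ((s 1 * t.2 : ℕ) : ℤ) (∏ j, s j)) := by
    rw [k8]; exact hG
  obtain ⟨s', e0, e1, e2, e3, d', c1, c2⟩ := three hNG hz17 hD ((s 0 * t.1 : ℕ) : ℤ)
    ((s 1 * t.2 : ℕ) : ℤ) hm hn hl hne hml hnl h1 h2 hls h3 h4 hlz hG'
  have hQ3 : 3 ∣ Q0 := hM.dvd 3 Nat.prime_three (by omega)
  have hQ17 : 17 ∣ Q0 := hM.dvd 17 (by norm_num) hz17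
  have n17 : ¬ 17 ∣ ∏ j, s' j := by
    intro h
    have := d'.gt 17 (by norm_num) h
    omega
  refine ⟨k1, k2, k3, k4, ?_, ?_, ?_, s', e0, e1, d'.sqf, d'.odd hz2, ?_, ?_, ?_, ?_, ?_, ?_, ?_,
    ?_, ?_, ?_, ?_⟩
  · have h5 : s 0 * t.1 ≡ a0 [MOD 3] := k5.of_dvd hQ3
    have h6 := hM.ap 3 Nat.prime_three le_rfl (by omega)
    rw [Nat.ModEq] at h5
    show (s 0 * t.1) % 3 = 1
    omega
  · have h5 : s 1 * t.2 ≡ b0 [MOD 3] := k6.of_dvd hQ3
    have h6 := hM.bp 3 Nat.prime_three le_rfl (by omega) (by norm_num)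
    rw [Nat.ModEq] at h5
    show (s 1 * t.2) % 3 = 2
    omega
  · show Nat.Coprime (s 0 * t.1) (s 1 * t.2)
    have h5 : (s' 0).Coprime (s' 1) := d'.cop.1
    rw [e0, e1] at h5
    exact h5
  · intro p hp h
    have := d'.gt p hp h
    omega
  · rw [e0, e1, e2, he']
    push_cast
    ring
  · rw [e0]; omega
  · rw [e1]; omega
  · have h5 : s 0 * t.1 ≡ a0 [MOD 17] := k5.of_dvd hQ17
    have h6 := hM.ap 17 (by norm_num) (by norm_num) hz17
    rw [Nat.ModEq] at h5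
    rw [e0]
    omega
  · have h5 : s 1 * t.2 ≡ b0 [MOD 17] := k6.of_dvd hQ17
    have h6 := hM.b17
    rw [Nat.ModEq] at h5
    rw [e1]
    omega
  · intro σ hσ
    obtain ⟨p, hp, hps, hpj⟩ := sigma_of (hD.odd hz2) hG.1 hσ
    refine ⟨p, hp, ?_, hpj⟩
    rw [e3]
    exact ((hps.mul_right _).mul_right _).mul_right _
  · exact (V0N s' _ d'.sqf (d'.odd hz2)).1
  · rw [e0, e1]
    exact c1
  · exact (hVN s' _ d'.sqf (d'.odd hz2) n17).1
  · rw [e0, e1]
    exact c2

/-- the integers without small prime factors -/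
theorem class3 {X l : ℕ} (h1 : 1 < l) (hlX : l < X) (hr : Rg3 X l) :
    l.Prime ∨ (∃ q : ℕ, q.Prime ∧ (X : ℝ) ^ (1 / 3 : ℝ) ≤ q ∧ q ^ 2 ∣ l) ∨
      (∃ q1 q2 : ℕ, q1.Prime ∧ q2.Prime ∧ q1 < q2 ∧ l = q1 * q2 ∧ (X : ℝ) ^ (1 / 3 : ℝ) ≤ q1 ∧
        (q1 : ℝ) ≤ (X : ℝ) ^ (1 / 2 : ℝ)) := by
  have hX0 : (0 : ℝ) < X := by
    have : 0 < X := by omega
    exact_mod_cast this
  by_cases hp : l.Prime
  · exact Or.inl hp
  right
  obtain ⟨k, hk⟩ := Nat.minFac_dvd l
  have hm : l.minFac.Prime := Nat.minFac_prime (by omega)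
  have hk1 : k ≠ 1 := by
    rintro rfl
    rw [mul_one] at hk
    exact hp (hk ▸ hm)
  have hk0 : k ≠ 0 := by
    rintro rfl
    omega
  have hkl : k ∣ l := ⟨l.minFac, by rw [mul_comm]; exact hk⟩
  have hm3 := hr _ hm (Nat.minFac_dvd l)
  -- k is prime
  have hkp : k.Prime := by
    by_contra hkp
    obtain ⟨r, hr'⟩ := Nat.minFac_dvd k
    have hmk : k.minFac.Prime := Nat.minFac_prime hk1
    have hr1 : r ≠ 1 := by
      rintro rfl
      rw [mul_one] at hr'
      exact hkp (hr' ▸ hmk)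
    have hr0 : r ≠ 0 := by
      rintro rfl
      omega
    have hmr : r.minFac.Prime := Nat.minFac_prime hr1
    have hrk : r ∣ k := ⟨k.minFac, by rw [mul_comm]; exact hr'⟩
    have h2 := hr _ hmk ((Nat.minFac_dvd k).trans hkl)
    have h3 := hr _ hmr (((Nat.minFac_dvd r).trans hrk).trans hkl)
    have h4 : l.minFac * k.minFac * r.minFac ≤ l := by
      calc l.minFac * k.minFac * r.minFac ≤ l.minFac * k.minFac * r :=
            Nat.mul_le_mul_left _ (Nat.minFac_le (Nat.pos_of_ne_zero hr0))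
        _ = l.minFac * (k.minFac * r) := by ring
        _ = l.minFac * k := by rw [← hr']
        _ = l := hk.symm
    have h5 : ((X : ℝ) ^ (1 / 3 : ℝ)) * ((X : ℝ) ^ (1 / 3 : ℝ)) * ((X : ℝ) ^ (1 / 3 : ℝ)) = X := by
      rw [← Real.rpow_add hX0, ← Real.rpow_add hX0]
      norm_num
    have h6 : (X : ℝ) ≤ l := by
      have h7 : ((l.minFac * k.minFac * r.minFac : ℕ) : ℝ) ≤ l := by exact_mod_cast h4
      refine le_trans ?_ h7
      rw [← h5]
      push_cast
      gcongr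
    have h7 : X ≤ l := by exact_mod_cast h6
    omega
  have hhalf : ∀ u w : ℕ, u < w → l = u * w → (u : ℝ) ≤ (X : ℝ) ^ (1 / 2 : ℝ) := by
    intro u w huw hl
    have h4 : u * u ≤ X := by
      have : u * u ≤ u * w := Nat.mul_le_mul_left u huw.le
      omega
    have h5 : ((u : ℝ)) ^ 2 ≤ X := by
      rw [sq]; exact_mod_cast h4
    rw [← Real.sqrt_eq_rpow]
    exact Real.le_sqrt_of_sq_le h5
  rcases lt_trichotomy l.minFac k with h | h | h
  · right
    exact ⟨l.minFac, k, hm, hkp, h, hk, hm3, hhalf _ _ h hk⟩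
  · left
    refine ⟨l.minFac, hm, hm3, ?_⟩
    rw [sq]
    conv_rhs => rw [hk, ← h]
  · right
    have hk' : l = k * l.minFac := by rw [mul_comm]; exact hk
    exact ⟨k, l.minFac, hkp, hm, h, hk', hr _ hkp hkl, hhalf _ _ h hk'⟩

section cls

variable {z Q0 a0 b0 X : ℕ} {s : Fin 3 → ℕ} {E : Finset ℕ} {t : ℕ × ℕ}

open Classical in
/-- the bad signs at `q` -/
noncomputable def BS (s : Fin 3 → ℕ) (E : Finset ℕ) (q : ℕ) : Finset (Finset ℕ) :=
  ({E, insert q E} : Finset (Finset ℕ)).filter (fun F => ¬ Gd (up s q) F)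

/-- classification -/
theorem cls (hNG : St_NG) (hVN : St_V17N) (hB : Big z X) (hM : ModZ z Q0 a0 b0) (hD : Dat z s)
    (hS : Sml X s) (hG : Gd s E) (ht : t ∈ AA X Q0 a0 b0 s E)
    (hr : Rg3 X (vv s t)) :
    GoodV X (s 0 * t.1, s 1 * t.2) ∨ Exc X s t ∨
      ∃ q ∈ Pt X, ∃ F ∈ BS s E q, t ∈ AA X Q0 a0 b0 (up s q) F ∧ Rg3 X (vv (up s q) t) := by
  classical
  have hz17 := hM.z17
  have hz2 : 2 ≤ z := by omega
  have hX1 : 1 ≤ X := by have := hB.two; omega
  by_cases hexc : Exc X s t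
  · exact Or.inr (Or.inl hexc)
  have hne : t.1 ≠ t.2 := fun h => hexc (Or.inl h)
  have hns : ¬ ∃ q : ℕ, q.Prime ∧ (X : ℝ) ^ (1 / 4 : ℝ) ≤ q ∧ q ^ 2 ∣ vv s t :=
    fun h => hexc (Or.inr h)
  have hsize := AA_size hz2 hD hM ht
  have heq := AA_eq hz2 hD hM ht
  obtain ⟨hb1, hb2, hb3⟩ := AA_big hB hS ht
  have hmem := ht
  unfold AA at hmem
  rw [mem_filter] at hmem
  obtain ⟨hI, hm, hn, k1, k2, k3, k4, k5, k6, k7, k8⟩ := hmem
  have hs2 : 0 < s 2 := Nat.pos_of_ne_zero (hD.ne 2)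
  have hz4 : (z : ℝ) ≤ (X : ℝ) ^ (1 / 2 : ℝ) := by
    refine hB.r4.le.trans ?_
    exact Real.rpow_le_rpow_of_exponent_le (by exact_mod_cast hX1) (by norm_num)
  have hzt := hb3 z hz4
  have hv1 : 1 < vv s t := by
    by_contra hcon
    push Not at hcon
    have h1 := hB.le (hS 2) (v := 1) (by
      rw [Nat.cast_one]
      exact Real.one_le_rpow (by exact_mod_cast hX1) (by norm_num))
    have h2 : s 2 * vv s t ≤ s 2 * 1 := Nat.mul_le_mul_left _ hcon
    omega
  have hvX : vv s t < X := by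
    have : vv s t ≤ s 2 * vv s t := Nat.le_mul_of_pos_left _ hs2
    omega
  have hgt : ∀ p : ℕ, p.Prime → p ∣ vv s t → ∀ j, s j < p := by
    intro p hp h j
    have h1 := hr p hp h
    have h0 := third hX1
    have h2 := hS j
    have h3 := hB.k4
    have : (s j : ℝ) < p := by linarith
    exact_mod_cast this
  rcases class3 hv1 hvX hr with h | h | h
  · left
    exact goodV_of hNG hVN hM hD ht h (nd_of_gt h (hgt _ h dvd_rfl) hD) hne (nd_of_gt hm hb1 hD)
      (nd_of_gt hn hb2 hD) hzt.1 hzt.2 hG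
  · obtain ⟨q, h5, h6, h7⟩ := h
    exact absurd ⟨q, h5, (third hX1).trans h6, h7⟩ hns
  · obtain ⟨q1, q2, hq1, hq2, hq12, hl, hr1, hr2⟩ := h
    have hq1X : q1 < X := by
      have : q1 ≤ vv s t := Nat.le_of_dvd (by omega) (by rw [hl]; exact dvd_mul_right _ _)
      omega
    have hPt : q1 ∈ Pt X := by
      unfold Pt
      rw [mem_filter, mem_Icc]
      exact ⟨⟨hq1.one_lt.le, hq1X.le⟩, hq1, hr1, hr2⟩
    have hq1s : ¬ q1 ∣ ∏ j, s j :=
      nd_of_gt hq1 (hgt q1 hq1 (by rw [hl]; exact dvd_mul_right _ _)) hD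
    have hq2s : ¬ q2 ∣ ∏ j, s j :=
      nd_of_gt hq2 (hgt q2 hq2 (by rw [hl]; exact dvd_mul_left _ _)) hD
    have hq1z : z < q1 := by
      have h1 := hB.r4
      have h0 := third hX1
      have : (z : ℝ) < q1 := by linarith
      exact_mod_cast this
    have hD' := Dat_up hD hq1 hq1z hq1s
    set F := sgF ((s 0 * t.1 : ℕ) : ℤ) ((s 1 * t.2 : ℕ) : ℤ) (∏ j, up s q1 j) with hF
    have heq' : s 0 * t.1 - s 1 * t.2 = 32 * ((s 2 * q1) * q2) := by
      rw [heq, hl]; ring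
    have htF : t ∈ AA X Q0 a0 b0 (up s q1) F := by
      unfold AA
      rw [mem_filter, up_zero, up_one, up_two]
      refine ⟨hI, hm, hn, k1, k2, k3, k4, k5, k6, ?_, rfl⟩
      rw [heq']
      exact (dvd_mul_right _ _).mul_left _
    have hFE : F = E ∨ F = insert q1 E := by
      rw [hF, up_prod]
      have := sgF_up ((s 0 * t.1 : ℕ) : ℤ) ((s 1 * t.2 : ℕ) : ℤ) (∏ j, s j) q1 hD.sqf.ne_zero hq1
      rw [k8] at this
      exact this
    have hvv : vv (up s q1) t = q2 := by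
      have h1 := AA_eq hz2 hD' hM htF
      rw [up_zero, up_one, up_two, heq'] at h1
      have h2 : 0 < 32 * (s 2 * q1) := by have := hq1.pos; positivity
      have h3 : 32 * (s 2 * q1) * q2 = 32 * (s 2 * q1) * vv (up s q1) t := by
        rw [mul_assoc, h1, ← mul_assoc]
      exact (Nat.eq_of_mul_eq_mul_left h2 h3).symm
    by_cases hFb : Gd (up s q1) F
    · left
      have hq1m : ¬ t.1 ∣ ∏ j, up s q1 j := by
        rw [up_prod]
        intro h
        rcases (hm.dvd_mul).1 h with h | h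
        · exact nd_of_gt hm hb1 hD h
        · have h1 := (Nat.prime_dvd_prime_iff_eq hm hq1).1 h
          have := (hb3 q1 hr2).1
          omega
      have hq1n : ¬ t.2 ∣ ∏ j, up s q1 j := by
        rw [up_prod]
        intro h
        rcases (hn.dvd_mul).1 h with h | h
        · exact nd_of_gt hn hb2 hD h
        · have h1 := (Nat.prime_dvd_prime_iff_eq hn hq1).1 h
          have := (hb3 q1 hr2).2
          omega
      have hq12' : ¬ vv (up s q1) t ∣ ∏ j, up s q1 j := by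
        rw [up_prod, hvv]
        intro h
        rcases (hq2.dvd_mul).1 h with h | h
        · exact hq2s h
        · have h1 := (Nat.prime_dvd_prime_iff_eq hq2 hq1).1 h
          omega
      have h5 := goodV_of hNG hVN hM hD' htF (by rw [hvv]; exact hq2) hq12' hne hq1m hq1n hzt.1
        hzt.2 hFb
      rw [up_zero, up_one] at h5
      exact h5
    · right; right
      refine ⟨q1, hPt, F, ?_, htF, ?_⟩
      · unfold BS
        rw [mem_filter, mem_insert, mem_singleton]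
        exact ⟨hFE, hFb⟩
      · rw [hvv]
        intro p hp hpq
        rw [(Nat.prime_dvd_prime_iff_eq hp hq2).1 hpq]
        have : (q1 : ℝ) ≤ q2 := by exact_mod_cast hq12.le
        linarith

end cls

end Pool.Agent.Y667.RZ
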