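import Pool.Agent.Y667.RZ.N4

/-!
# Project RZ, the main argument, part 5: the analytic constants
-/

set_option autoImplicit false

namespace Pool.Agent.Y667.RZ

open Finset Filter Topology Pool.Agent.W262.RK Pool.Agent.W307.RT Pool.Agent.W307.RS
  Pool.Agent.W307.SE Pool.Agent.W307.FK Pool.Agent.Y667.RP

lemma log_32 : Real.log (3 / 2) ≤ 3 / 5 * Real.log 2 := by
  have e1 : 5 * Real.log (3 / 2) = Real.log ((3 / 2) ^ 5) := by
    rw [Real.log_pow]; norm_num
  have e2 : 3 * Real.log 2 = Real.log (2 ^ 3) := by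
    rw [Real.log_pow]; norm_num
  have h : Real.log ((3 / 2 : ℝ) ^ 5) ≤ Real.log (2 ^ 3) := Real.log_le_log (by norm_num) (by norm_num)
  rw [← e1, ← e2] at h
  linarith

/-- the numerical core -/
lemma bracket3 {A0 Λ : ℝ} (hA0 : 0 < A0) (hΛ : Λ ≤ Real.log (3 / 2) + 1 / 1000) :
    A0 / 100 ≤ A0 * (50 / 49 * Real.log (97 / 50)) - A0 / 1000 -
      (A0 / (12 / 25) + A0 / 1000) * (1 / 2 * (3 / 2 * Λ + 1 / 1000)) := by
  have h1 := log_32
  have h2 := Real.log_two_lt_d9
  have h3 := Real.log_two_gt_d9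
  have h4 : Real.log (97 / 50) = Real.log 2 + Real.log (97 / 100) := by
    rw [← Real.log_mul (by norm_num) (by norm_num)]
    norm_num
  have h5 : 1 - (97 / 100 : ℝ)⁻¹ ≤ Real.log (97 / 100) :=
    Real.one_sub_inv_le_log_of_pos (by norm_num)
  norm_num at h5
  have h6 : (1 : ℝ) / 100 ≤ 50 / 49 * Real.log (97 / 50) - 1 / 1000 -
      (1 / (12 / 25) + 1 / 1000) * (1 / 2 * (3 / 2 * Λ + 1 / 1000)) := by
    rw [h4]
    norm_num
    linarith
  have h7 := mul_le_mul_of_nonneg_left h6 hA0.le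
  calc A0 / 100 = A0 * (1 / 100) := by ring
    _ ≤ _ := h7
    _ = _ := by ring

/-- Mertens over `[X ^ (1/3), X ^ (1/2)]` -/
theorem mert_third (δ : ℝ) (hδ : 0 < δ) : ∃ X0 : ℕ, ∀ X : ℕ, X0 ≤ X →
    ∑ q ∈ (Icc 1 X).filter (fun q : ℕ => q.Prime ∧ (X : ℝ) ^ (1 / 3 : ℝ) ≤ q ∧
      (q : ℝ) ≤ (X : ℝ) ^ (1 / 2 : ℝ)), 1 / ((q : ℝ) - 1) ≤ Real.log (3 / 2) + δ := by
  obtain ⟨M, hM⟩ := Pool.Agent.H305R2.mertens_inv_tendsto
  set S : ℕ → ℝ := fun N => ∑ p ∈ (Icc 1 N).filter Nat.Prime, (1 : ℝ) / p with hS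
  -- a small parameter
  set θ : ℝ := min (δ / 8) (1 / 8) with hθ
  have hθ0 : 0 < θ := lt_min (by linarith) (by norm_num)
  have hθ1 : θ ≤ δ / 8 := min_le_left _ _
  have hθ2 : θ ≤ 1 / 8 := min_le_right _ _
  obtain ⟨N0, hN0⟩ := (Metric.tendsto_nhds.mp hM θ hθ0).exists_forall_of_atTop
  have hN : ∀ N : ℕ, N0 ≤ N → |S N - Real.log (Real.log N) - M| < θ := by
    intro N h
    have := hN0 N h
    rwa [Real.dist_eq] at this
  -- eventually
  have hq : Tendsto (fun X : ℕ => (X : ℝ) ^ (1 / 3 : ℝ)) atTop atTop :=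
    (tendsto_rpow_atTop (by norm_num)).comp tendsto_natCast_atTop_atTop
  have e1 : ∀ᶠ X : ℕ in atTop, (N0 : ℝ) + 8 + 4 / θ ≤ (X : ℝ) ^ (1 / 3 : ℝ) :=
    hq.eventually_ge_atTop _
  have e2 : ∀ᶠ X : ℕ in atTop, (8 / θ : ℝ) ≤ Real.log X := log_tendsto.eventually_ge_atTop _
  obtain ⟨X0, hX0⟩ := (e1.and e2).exists_forall_of_atTop
  refine ⟨max X0 2, fun X hX => ?_⟩
  obtain ⟨h1, h2⟩ := hX0 X ((le_max_left _ _).trans hX)
  have hX2 : 2 ≤ X := (le_max_right _ _).trans hX
  have hXr : (0 : ℝ) < X := by positivity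
  set Q : ℝ := (X : ℝ) ^ (1 / 3 : ℝ) with hQ
  set R : ℝ := (X : ℝ) ^ (1 / 2 : ℝ) with hR
  have h4θ : 0 < 4 / θ := by positivity
  have hQ8 : 8 ≤ Q := by
    have : (0 : ℝ) ≤ N0 := Nat.cast_nonneg _
    linarith
  have hR0 : 0 ≤ R := by rw [hR]; positivity
  have hQR2 : R ^ 2 = Q ^ 3 := by
    rw [hQ, hR, ← Real.rpow_natCast, ← Real.rpow_mul hXr.le, ← Real.rpow_natCast,
      ← Real.rpow_mul hXr.le]
    norm_num
  have hQR : Q + 1 ≤ R := by
    by_contra hcon
    push Not at hcon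
    have h5 : R ^ 2 ≤ (Q + 1) ^ 2 := pow_le_pow_left₀ hR0 hcon.le 2
    rw [hQR2] at h5
    nlinarith [mul_nonneg (by linarith : 0 ≤ Q - 8) (sq_nonneg Q)]
  set N1 : ℕ := ⌈Q⌉₊ - 1 with hN1
  set N2 : ℕ := ⌊R⌋₊ with hN2
  have hc1 : 1 ≤ ⌈Q⌉₊ := Nat.one_le_ceil_iff.2 (by linarith)
  have hN1r : (N1 : ℝ) = (⌈Q⌉₊ : ℝ) - 1 := by rw [hN1, Nat.cast_sub hc1]; simp
  have hN1a : Q - 1 ≤ N1 := by
    rw [hN1r]
    have := Nat.le_ceil Q
    linarith
  have hN1b : (N1 : ℝ) < Q := by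
    rw [hN1r]
    have := Nat.ceil_lt_add_one (by linarith : 0 ≤ Q)
    linarith
  have hN2a : (N2 : ℝ) ≤ R := Nat.floor_le (by positivity)
  have hN2b : R - 1 < N2 := by
    have := Nat.lt_floor_add_one R
    linarith
  have hN1N0 : N0 ≤ N1 := by
    have : (N0 : ℝ) ≤ N1 := by linarith
    exact_mod_cast this
  have hN2N0 : N0 ≤ N2 := by
    have h3 : Q + 1 ≤ R := hQR
    have : (N0 : ℝ) ≤ N2 := by linarith
    exact_mod_cast this
  have hN12 : N1 ≤ N2 := by
    have h3 : Q + 1 ≤ R := hQR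
    have : (N1 : ℝ) ≤ N2 := by linarith
    exact_mod_cast this
  -- the sum of 1/q
  have hsum : ∑ q ∈ (Icc 1 X).filter (fun q : ℕ => q.Prime ∧ Q ≤ q ∧ (q : ℝ) ≤ R), (1 : ℝ) / q ≤
      S N2 - S N1 := by
    have h3 : S N2 - S N1 = ∑ q ∈ (Ioc N1 N2).filter Nat.Prime, (1 : ℝ) / q := by
      rw [hS]
      simp only
      rw [sub_eq_iff_eq_add, ← sum_union]
      · apply sum_congr _ (fun _ _ => rfl)
        ext q
        simp only [mem_union, mem_filter, mem_Ioc, mem_Icc]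
        constructor
        · rintro ⟨⟨a1, a2⟩, a3⟩
          rcases Nat.lt_or_ge N1 q with h | h
          · exact Or.inl ⟨⟨h, a2⟩, a3⟩
          · exact Or.inr ⟨⟨a1, h⟩, a3⟩
        · rintro (⟨⟨a1, a2⟩, a3⟩ | ⟨⟨a1, a2⟩, a3⟩)
          · exact ⟨⟨by omega, a2⟩, a3⟩
          · exact ⟨⟨a1, by omega⟩, a3⟩
      · rw [disjoint_left]
        intro q hq1 hq2
        rw [mem_filter, mem_Ioc] at hq1
        rw [mem_filter, mem_Icc] at hq2
        omega
    rw [h3]
    apply sum_le_sum_of_subset_of_nonneg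
    · intro q hq
      rw [mem_filter] at hq ⊢
      rw [mem_Ioc]
      obtain ⟨-, a1, a2, a3⟩ := hq
      refine ⟨⟨?_, Nat.le_floor a3⟩, a1⟩
      have : (N1 : ℝ) < q := by linarith
      exact_mod_cast this
    · intro q _ _
      positivity
  have hdiff : S N2 - S N1 ≤ Real.log (Real.log N2) - Real.log (Real.log N1) + 2 * θ := by
    have a1 := abs_lt.1 (hN N2 hN2N0)
    have a2 := abs_lt.1 (hN N1 hN1N0)
    linarith [a1.1, a1.2, a2.1, a2.2]
  -- the logarithms
  have hL : 0 < Real.log X := Real.log_pos (by exact_mod_cast (by omega : 1 < X))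
  have hlogN2 : Real.log N2 ≤ Real.log X / 2 := by
    have hN2pos : (0 : ℝ) < N2 := by
      have h3 : Q + 1 ≤ R := hQR
      linarith
    have := Real.log_le_log hN2pos hN2a
    rw [hR, Real.log_rpow hXr] at this
    linarith
  have hlogN1 : Real.log X / 3 - 1 ≤ Real.log N1 := by
    have h3 : Q / 2 ≤ N1 := by linarith
    have h4 := Real.log_le_log (by positivity) h3
    rw [Real.log_div (by positivity) (by norm_num), hQ, Real.log_rpow hXr] at h4
    have := Real.log_two_lt_d9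
    linarith
  have hL8 : 64 ≤ Real.log X := by
    have : 64 ≤ 8 / θ := by
      rw [le_div_iff₀ hθ0]
      linarith
    linarith
  have hpos1 : 0 < Real.log X / 3 - 1 := by linarith
  have hpos2 : 0 < Real.log (N2 : ℝ) := by
    have h3 : (1 : ℝ) < N2 := by
      have h3 : Q + 1 ≤ R := hQR
      linarith
    exact Real.log_pos h3
  have hll : Real.log (Real.log N2) - Real.log (Real.log N1) ≤ Real.log (3 / 2) + θ := by
    have a1 : Real.log (Real.log N2) ≤ Real.log (Real.log X / 2) := Real.log_le_log hpos2 hlogN2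
    have a2 : Real.log (Real.log X / 3 - 1) ≤ Real.log (Real.log N1) :=
      Real.log_le_log hpos1 hlogN1
    have a3 : Real.log (Real.log X / 2) - Real.log (Real.log X / 3 - 1) =
        Real.log (3 / 2) - Real.log (1 - 3 / Real.log X) := by
      rw [← Real.log_div (by positivity) (by positivity), ← Real.log_div (by norm_num)]
      · congr 1
        have hne : Real.log X ≠ 0 := hL.ne'
        have hne2 : Real.log X / 3 - 1 ≠ 0 := hpos1.ne'
        have hne3 : 1 - 3 / Real.log X ≠ 0 := by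
          have : 1 - 3 / Real.log X = (Real.log X / 3 - 1) * (3 / Real.log X) := by
            field_simp
          rw [this]
          positivity
        have hne4 : Real.log X - 3 ≠ 0 := by linarith
        field_simp
      · have : 3 / Real.log X < 1 := by
          rw [div_lt_one hL]; linarith
        linarith
    have a4 : -Real.log (1 - 3 / Real.log X) ≤ θ := by
      have h4 : 3 / Real.log X ≤ θ / 2 := by
        rw [div_le_iff₀ hL]
        have : 8 ≤ θ * Real.log X := by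
          rw [div_le_iff₀ hθ0] at h2
          linarith
        linarith
      have h5 : 1 - θ / 2 ≤ 1 - 3 / Real.log X := by linarith
      have h6 : Real.log (1 - θ / 2) ≤ Real.log (1 - 3 / Real.log X) :=
        Real.log_le_log (by linarith) h5
      have h7 : 1 - (1 - θ / 2)⁻¹ ≤ Real.log (1 - θ / 2) :=
        Real.one_sub_inv_le_log_of_pos (by linarith)
      have h8 : (1 - θ / 2)⁻¹ ≤ 1 + θ := by
        rw [inv_le_iff_one_le_mul₀ (by linarith)]
        nlinarith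
      linarith
    linarith
  have hfin : ∑ q ∈ (Icc 1 X).filter (fun q : ℕ => q.Prime ∧ Q ≤ q ∧ (q : ℝ) ≤ R),
      1 / ((q : ℝ) - 1) ≤ (1 + θ) * (Real.log (3 / 2) + 3 * θ) := by
    calc _ ≤ ∑ q ∈ (Icc 1 X).filter (fun q : ℕ => q.Prime ∧ Q ≤ q ∧ (q : ℝ) ≤ R),
          (1 + θ) * ((1 : ℝ) / q) := by
          apply sum_le_sum
          intro q hq
          rw [mem_filter] at hq
          have hqQ := hq.2.2.1
          have hq1 : (0 : ℝ) < (q : ℝ) - 1 := by linarith
          have hq0 : (0 : ℝ) < (q : ℝ) := by linarith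
          rw [mul_one_div, div_le_div_iff₀ hq1 hq0]
          have h3 : 4 / θ ≤ q := by
            have : (0 : ℝ) ≤ N0 := Nat.cast_nonneg _
            linarith
          rw [div_le_iff₀ hθ0] at h3
          nlinarith
      _ = (1 + θ) * ∑ q ∈ (Icc 1 X).filter (fun q : ℕ => q.Prime ∧ Q ≤ q ∧ (q : ℝ) ≤ R),
          (1 : ℝ) / q := by rw [mul_sum]
      _ ≤ (1 + θ) * (Real.log (3 / 2) + 3 * θ) := by
          apply mul_le_mul_of_nonneg_left _ (by linarith)
          linarith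
  refine hfin.trans ?_
  have h32 : Real.log (3 / 2) ≤ 1 := by
    have := Real.log_le_sub_one_of_pos (by norm_num : (0 : ℝ) < 3 / 2)
    linarith
  have h32' : 0 ≤ Real.log (3 / 2) := Real.log_nonneg (by norm_num)
  nlinarith


end Pool.Agent.Y667.RZ
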